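import Pool.Agent.Helper63.Pow.Defs

/-!
Finite requirements on tuples of nonempty open sets, and the countable chain condition for
products of disjoint open sets.
-/

namespace Pool.Agent.Helper63.Pow

open Set

universe u v

/-- Nonempty open sets. -/
abbrev ONS (X : Type u) [TopologicalSpace X] := {V : Set X // IsOpen V ∧ V.Nonempty}

theorem finite_req {P : Type*} [Preorder P] {C : Type*} [Finite C] (R : C → P → Prop)
    (mono : ∀ c p q, q ≤ p → R c p → R c q) (dense : ∀ c p, ∃ q ≤ p, R c q) (p : P) :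
    ∃ q ≤ p, ∀ c, R c q := by
  classical
  have := Fintype.ofFinite C
  have key : ∀ s : Finset C, ∃ q ≤ p, ∀ c ∈ s, R c q := by
    intro s
    induction s using Finset.induction_on with
    | empty => exact ⟨p, le_rfl, by simp⟩
    | insert a s _ ih =>
      obtain ⟨q, hq, h⟩ := ih
      obtain ⟨r, hr, h'⟩ := dense a q
      refine ⟨r, hr.trans hq, fun c hc => ?_⟩
      rcases Finset.mem_insert.mp hc with rfl | hc
      · exact h'
      · exact mono _ _ _ hr (h c hc)
  obtain ⟨q, hq, h⟩ := key Finset.univ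
  exact ⟨q, hq, fun c => h c (Finset.mem_univ c)⟩

theorem S1.toSfin {X : Type u} {𝔘 𝔙 : Set (Set (Set X))} (h : S1 𝔘 𝔙) : Sfin 𝔘 𝔙 := by
  intro 𝒰 h𝒰
  obtain ⟨U, h1, h2⟩ := h 𝒰 h𝒰
  refine ⟨fun n => {U n}, fun n => ⟨by simpa using h1 n, finite_singleton _⟩, ?_⟩
  convert h2 using 1
  ext V
  simp [eq_comm]

/-- Membership in `D_Ω` only needs the two additional conditions. -/
theorem mem_DOmega {X : Type u} [TopologicalSpace X] {𝒰 : Set (Set X)}
    (h1 : ∀ U ∈ 𝒰, IsOpen U) (h2 : ∀ U ∈ 𝒰, ¬ (univ : Set X) ⊆ closure U)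
    (h3 : ∀ ℱ : Set (Set X), ℱ.Finite → (∀ F ∈ ℱ, IsOpen F ∧ F.Nonempty) →
      ∃ U ∈ 𝒰, ∀ F ∈ ℱ, (U ∩ F).Nonempty) : 𝒰 ∈ DOmega X := by
  refine ⟨⟨h1, ?_⟩, h2, h3⟩
  rw [dense_iff_inter_open]
  intro O hO hne
  obtain ⟨U, hU, h⟩ := h3 {O} (finite_singleton O) (by
    rintro F rfl; exact ⟨hO, hne⟩)
  obtain ⟨x, hxU, hxO⟩ := h O rfl
  exact ⟨x, hxO, mem_sUnion.mpr ⟨U, hU, hxU⟩⟩

/-- The countable chain condition for boxes in a product of disjoint open sets. -/
theorem ccc_box {X : Type u} [TopologicalSpace X] (hX : Sfin (DOmega X) (DOmega X)) {n : ℕ}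
    (V : Fin n → Set X) (hV : ∀ i, IsOpen (V i)) (hdisj : ∀ i j, i ≠ j → Disjoint (V i) (V j))
    (𝒜 : Set (Fin n → ONS X)) (h1 : ∀ B ∈ 𝒜, ∀ i, (B i : Set X) ⊆ V i)
    (h2 : ∀ B ∈ 𝒜, ∀ B' ∈ 𝒜, B ≠ B' → ∃ i, Disjoint (B i : Set X) (B' i)) : 𝒜.Countable := by
  classical
  rcases Nat.eq_zero_or_pos n with rfl | hn
  · exact (Set.toFinite 𝒜).countable
  have : Nonempty (Fin n) := ⟨⟨0, hn⟩⟩
  obtain ⟨𝒜', hsub, hmax⟩ := zorn_subset_nonempty
    {𝒜 : Set (Fin n → ONS X) | (∀ B ∈ 𝒜, ∀ i, (B i : Set X) ⊆ V i) ∧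
      ∀ B ∈ 𝒜, ∀ B' ∈ 𝒜, B ≠ B' → ∃ i, Disjoint (B i : Set X) (B' i)}
    (by
      intro c hc hchain _
      refine ⟨⋃₀ c, ⟨?_, ?_⟩, fun s hs => subset_sUnion_of_mem hs⟩
      · rintro B ⟨s, hs, hB⟩
        exact (hc hs).1 B hB
      · rintro B ⟨s, hs, hB⟩ B' ⟨s', hs', hB'⟩ hne
        rcases hchain.total hs hs' with h | h
        · exact (hc hs').2 B (h hB) B' hB' hne
        · exact (hc hs).2 B hB B' (h hB') hne) 𝒜 ⟨h1, h2⟩
  refine Set.Countable.mono hsub ?_
  by_contra hunc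
  obtain ⟨m1, m2⟩ := hmax.prop
  -- maximality
  have hmx : ∀ H : Fin n → ONS X, (∀ i, (H i : Set X) ⊆ V i) →
      ∃ B ∈ 𝒜', ∀ i, ((H i : Set X) ∩ B i).Nonempty := by
    intro H hH
    by_contra hcon
    push Not at hcon
    have hmem : insert H 𝒜' ∈ {𝒜 : Set (Fin n → ONS X) | (∀ B ∈ 𝒜, ∀ i, (B i : Set X) ⊆ V i) ∧
      ∀ B ∈ 𝒜, ∀ B' ∈ 𝒜, B ≠ B' → ∃ i, Disjoint (B i : Set X) (B' i)} := by
      refine ⟨?_, ?_⟩
      · intro B hB
        rcases hB with rfl | hB
        · exact hH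
        · exact m1 B hB
      · intro B hB B' hB' hne
        rcases hB with rfl | hB <;> rcases hB' with rfl | hB'
        · exact absurd rfl hne
        · obtain ⟨i, hi⟩ := hcon B' hB'
          exact ⟨i, disjoint_iff_inter_eq_empty.mpr hi⟩
        · obtain ⟨i, hi⟩ := hcon B hB
          exact ⟨i, (disjoint_iff_inter_eq_empty.mpr hi).symm⟩
        · exact m2 B hB B' hB' hne
    have hle : insert H 𝒜' ⊆ 𝒜' := hmax.le_of_ge hmem (subset_insert _ _)
    obtain ⟨i, hi⟩ := hcon H (hle (mem_insert _ _))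
    rw [inter_self] at hi
    exact (H i).2.2.ne_empty hi
  set 𝒰 : Set (Set X) := {U | IsOpen U ∧ {B ∈ 𝒜' | ∀ i, (U ∩ (B i : Set X)).Nonempty}.Countable}
    with h𝒰
  have hΩ : 𝒰 ∈ DOmega X := by
    apply mem_DOmega
    · intro U hU; exact hU.1
    · intro U hU hd
      apply hunc
      refine Set.Countable.mono ?_ hU.2
      intro B hB
      refine ⟨hB, fun i => ?_⟩
      obtain ⟨x, hx⟩ := (B i).2.2
      obtain ⟨y, hy1, hy2⟩ := mem_closure_iff.mp (hd (mem_univ x)) _ (B i).2.1 hx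
      exact ⟨y, hy2, hy1⟩
    · intro ℱ hℱ hop
      have := hℱ.to_subtype
      -- a tuple of sets
      obtain ⟨G, hG, hR⟩ := finite_req (P := ℱ → ONS X) (C := Fin n → ℱ)
        (fun c G => (∃ i, Disjoint (G (c i) : Set X) (V i)) ∨
          ∃ B ∈ 𝒜', ∀ i, (G (c i) : Set X) ⊆ B i)
        (by
          rintro c p q hqp (⟨i, hi⟩ | ⟨B, hB, hi⟩)
          · exact Or.inl ⟨i, Disjoint.mono_left (hqp (c i)) hi⟩
          · exact Or.inr ⟨B, hB, fun i => (hqp (c i)).trans (hi i)⟩)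
        (by
          intro c G
          by_cases hc : ∃ i, ¬ (G (c i) : Set X) ⊆ closure (V i)
          · obtain ⟨i, hi⟩ := hc
            obtain ⟨x, hx1, hx2⟩ := not_subset.mp hi
            refine ⟨Function.update G (c i) ⟨(G (c i) : Set X) \ closure (V i),
              (G (c i)).2.1.sdiff isClosed_closure, ⟨x, hx1, hx2⟩⟩, ?_, Or.inl ⟨i, ?_⟩⟩
            · intro j
              by_cases hj : j = c i
              · subst hj; rw [Function.update_self]; exact sdiff_subset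
              · rw [Function.update_of_ne hj]
            · rw [Function.update_self]
              exact disjoint_left.mpr fun y hy hy' => hy.2 (subset_closure hy')
          · push Not at hc
            have hne : ∀ i, ((G (c i) : Set X) ∩ V i).Nonempty := by
              intro i
              obtain ⟨x, hx⟩ := (G (c i)).2.2
              exact mem_closure_iff.mp (hc i hx) _ (G (c i)).2.1 hx
            have hinj : Function.Injective c := by
              intro i j hij
              by_contra hne'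
              obtain ⟨x, hx1, hx2⟩ := hne i
              have hx3 : x ∈ closure (V j) := hc j (hij ▸ hx1)
              obtain ⟨y, hy1, hy2⟩ := mem_closure_iff.mp hx3 _ (hV i) hx2
              exact disjoint_left.mp (hdisj i j hne') hy1 hy2
            obtain ⟨B, hB, hBi⟩ := hmx (fun i => ⟨(G (c i) : Set X) ∩ V i,
              (G (c i)).2.1.inter (hV i), hne i⟩) (fun i => inter_subset_right)
            have hex : ∀ j, ∃ W : ONS X, W ≤ G j ∧ ∀ i, c i = j → (W : Set X) ⊆ B i := by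
              intro j
              by_cases hj : ∃ i, c i = j
              · obtain ⟨i, rfl⟩ := hj
                refine ⟨⟨((G (c i) : Set X) ∩ V i) ∩ B i,
                  ((G (c i)).2.1.inter (hV i)).inter (B i).2.1, hBi i⟩, ?_, ?_⟩
                · exact inter_subset_left.trans inter_subset_left
                · intro i' hi'
                  rw [hinj hi']
                  exact inter_subset_right
              · exact ⟨G j, le_rfl, fun i hi => absurd ⟨i, hi⟩ hj⟩
            choose W hW1 hW2 using hex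
            exact ⟨W, hW1, Or.inr ⟨B, hB, fun i => hW2 (c i) i rfl⟩⟩)
        (fun F => ⟨F.1, hop F.1 F.2⟩)
      refine ⟨⋃ j, (G j : Set X), ⟨isOpen_iUnion fun j => (G j).2.1, ?_⟩, ?_⟩
      · have hfin : (⋃ c : Fin n → ℱ, {B ∈ 𝒜' | ∀ i, ((G (c i) : Set X) ∩ (B i : Set X)).Nonempty}
            ).Countable := by
          refine countable_iUnion fun c => ?_
          rcases hR c with ⟨i, hi⟩ | ⟨B₀, hB₀, hi⟩
          · refine (countable_empty).mono ?_
            rintro B ⟨hB, h⟩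
            obtain ⟨x, hx1, hx2⟩ := h i
            exact absurd (m1 B hB i hx2) (disjoint_left.mp hi hx1)
          · refine (countable_singleton B₀).mono ?_
            rintro B ⟨hB, h⟩
            by_contra hne
            obtain ⟨i, hdi⟩ := m2 B hB B₀ hB₀ hne
            obtain ⟨x, hx1, hx2⟩ := h i
            exact disjoint_left.mp hdi hx2 (hi i hx1)
        refine hfin.mono ?_
        rintro B ⟨hB, h⟩
        have : ∀ i, ∃ j, ((G j : Set X) ∩ (B i : Set X)).Nonempty := by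
          intro i
          obtain ⟨x, hx1, hx2⟩ := h i
          obtain ⟨j, hj⟩ := mem_iUnion.mp hx1
          exact ⟨j, x, hj, hx2⟩
        choose c hc using this
        exact mem_iUnion.mpr ⟨c, hB, hc⟩
      · intro F hF
        obtain ⟨x, hx⟩ := (G ⟨F, hF⟩).2.2
        exact ⟨x, mem_iUnion.mpr ⟨⟨F, hF⟩, hx⟩, hG ⟨F, hF⟩ hx⟩
  obtain ⟨ℱ, hℱ, hsel⟩ := hX (fun _ => 𝒰) (fun _ => hΩ)
  apply hunc
  have hc : (⋃ U ∈ (⋃ n, ℱ n), {B ∈ 𝒜' | ∀ i, (U ∩ (B i : Set X)).Nonempty}).Countable := by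
    refine Set.Countable.biUnion (countable_iUnion fun n => (hℱ n).2.countable) ?_
    intro U hU
    obtain ⟨n, hn⟩ := mem_iUnion.mp hU
    exact ((hℱ n).1 hn).2
  refine hc.mono fun B hB => ?_
  obtain ⟨U, hU, h⟩ := hsel.2.2 (range fun i => (B i : Set X)) (finite_range _) (by
    rintro F ⟨i, rfl⟩; exact (B i).2)
  simp only [mem_iUnion₂]
  exact ⟨U, hU, hB, fun i => h _ ⟨i, rfl⟩⟩

end Pool.Agent.Helper63.Pow
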