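import Pool.Agent.Helper63.Pow.Forcing

/-!
Coding of finitely many open boxes in one open set.
-/

namespace Pool.Agent.Helper63.Pow

open Set

universe u v

section

variable {X : Type u} [TopologicalSpace X]

theorem meet_iff {A B : ONS X} : Meet A B ↔ ((A : Set X) ∩ B).Nonempty := by
  constructor
  · rintro ⟨C, h1, h2⟩
    obtain ⟨x, hx⟩ := C.2.2
    exact ⟨x, h1 hx, h2 hx⟩
  · intro h
    exact ⟨⟨(A : Set X) ∩ B, A.2.1.inter B.2.1, h⟩, inter_subset_left, inter_subset_right⟩

theorem hyp_closure {G : ONS X} (hG : Hyp G) {H : Set X} (hH : IsOpen H)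
    (hne : (H ∩ (G : Set X)).Nonempty) : (G : Set X) ⊆ closure H := by
  intro y hy
  rw [mem_closure_iff]
  intro N hN hyN
  have := hG ⟨H ∩ G, hH.inter G.2.1, hne⟩ ⟨N ∩ G, hN.inter G.2.1, ⟨y, hyN, hy⟩⟩
    inter_subset_right inter_subset_right
  obtain ⟨z, hz1, hz2⟩ := meet_iff.mp this
  exact ⟨z, hz2.1, hz1.1⟩

variable {ι : Type} [Finite ι]

/-- The good index tuples: an index is repeated only if its piece is an atom. -/
def GoodTup {m : ℕ} (G : Fin m → ONS X) (c : ι → Fin m) : Prop :=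
  ∀ i i', i ≠ i' → c i = c i' → Hyp (G (c i))

theorem code_exists {𝒞 : Set (ONS X)} (down : ∀ C C' : ONS X, C ∈ 𝒞 → C' ≤ C → C' ∈ 𝒞)
    (dense : ∀ V : ONS X, ∃ C ∈ 𝒞, C ≤ V) (hyp : ∀ C ∈ 𝒞, ∀ G ≤ C, Hyp G → Hyp C)
    (𝒱 : (ι → ℕ) → Set (Set (ι → X))) (h𝒱 : ∀ c, 𝒱 c ∈ DFam (ι → X)) {m : ℕ}
    (F : Fin m → ONS X) :
    ∃ G : Fin m → ONS X, (∀ j, G j ≤ F j ∧ G j ∈ 𝒞) ∧ ∀ c : ι → Fin m, GoodTup G c →
      ∃ V ∈ 𝒱 (fun i => (c i : ℕ)), univ.pi (fun i => (G (c i) : Set X)) ⊆ closure V := by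
  classical
  have h0 : ∀ j, ∃ C ∈ 𝒞, C ≤ F j := fun j => dense (F j)
  choose G₀ hG₀ hG₀' using h0
  obtain ⟨G, hG, hR⟩ := finite_req (P := Fin m → {C : ONS X // C ∈ 𝒞}) (C := ι → Fin m)
    (fun c G => (∀ i i', i ≠ i' → c i = c i' → Hyp (G (c i)).1) →
      ∃ V ∈ 𝒱 (fun i => (c i : ℕ)), univ.pi (fun i => ((G (c i)).1 : Set X)) ⊆ closure V)
    (by
      intro c p q hqp hp hq
      obtain ⟨V, hV, h⟩ := hp fun i i' hii hc =>
        hyp _ (p (c i)).2 (q (c i)).1 (hqp (c i)) (hq i i' hii hc)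
      exact ⟨V, hV, Subset.trans (pi_mono fun i _ => hqp (c i)) h⟩)
    (by
      intro c G
      by_cases hgood : ∀ i i', i ≠ i' → c i = c i' → Hyp (G (c i)).1
      swap
      · exact ⟨G, le_rfl, fun h => absurd h hgood⟩
      obtain ⟨hVo, hVd⟩ := h𝒱 fun i => (c i : ℕ)
      have hbo : IsOpen (univ.pi (fun i => ((G (c i)).1 : Set X))) :=
        isOpen_set_pi finite_univ fun i _ => (G (c i)).1.2.1
      have hbn : (univ.pi (fun i => ((G (c i)).1 : Set X))).Nonempty :=
        univ_pi_nonempty_iff.mpr fun i => (G (c i)).1.2.2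
      obtain ⟨x, hx, V, hV, hxV⟩ := hVd.inter_open_nonempty _ hbo hbn
      rw [mem_univ_pi] at hx
      obtain ⟨H, hH, hHV⟩ := isOpen_pi_iff'.mp (hVo V hV) x hxV
      have hex : ∀ j, ∃ W : {C : ONS X // C ∈ 𝒞}, W ≤ G j ∧
          ∀ i, c i = j → (W.1 : Set X) ⊆ closure (H i) := by
        intro j
        by_cases hj : Hyp (G j).1
        · refine ⟨G j, le_rfl, ?_⟩
          rintro i rfl
          exact hyp_closure hj (hH i).1 ⟨x i, (hH i).2, hx i⟩
        · by_cases hi : ∃ i, c i = j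
          · obtain ⟨i, rfl⟩ := hi
            refine ⟨⟨⟨((G (c i)).1 : Set X) ∩ H i, (G (c i)).1.2.1.inter (hH i).1,
              ⟨x i, hx i, (hH i).2⟩⟩, down _ _ (G (c i)).2 inter_subset_left⟩,
              inter_subset_left, ?_⟩
            intro i' hi'
            have : i' = i := by
              by_contra hne
              have := hgood i' i hne hi'
              rw [hi'] at this
              exact hj this
            subst this
            exact inter_subset_right.trans subset_closure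
          · exact ⟨G j, le_rfl, fun i hi' => absurd ⟨i, hi'⟩ hi⟩
      choose W hW1 hW2 using hex
      refine ⟨W, hW1, fun _ => ⟨V, hV, ?_⟩⟩
      refine Subset.trans (pi_mono fun i _ => hW2 (c i) i rfl) ?_
      rw [← closure_pi_set]
      exact closure_mono hHV)
    (fun j => ⟨G₀ j, hG₀ j⟩)
  exact ⟨fun j => (G j).1, fun j => ⟨le_trans (show (G j).1 ≤ G₀ j from hG j) (hG₀' j), (G j).2⟩,
    hR⟩

theorem separate {𝒞 : ℕ → Set (ONS X)} (h𝒞 : Sep 𝒞) (F : ι → ONS X) :
    ∃ F' ≤ F, ∃ n, ∀ i i', i ≠ i' →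
      Hyp (F' i) ∨ ∀ C ∈ 𝒞 n, ¬ (Meet C (F' i) ∧ Meet C (F' i')) := by
  classical
  obtain ⟨F', hF', hR⟩ := finite_req (P := ι → ONS X) (C := ι × ι)
    (fun c F => c.1 ≠ c.2 →
      Hyp (F c.1) ∨ ∃ n, ∀ C ∈ 𝒞 n, ¬ (Meet C (F c.1) ∧ Meet C (F c.2)))
    (by
      rintro ⟨i, i'⟩ p q hqp hp hne
      rcases hp hne with h | ⟨n, h⟩
      · exact Or.inl (h.mono (hqp i))
      · exact Or.inr ⟨n, fun C hC hm =>
          h C hC ⟨hm.1.mono le_rfl (hqp i), hm.2.mono le_rfl (hqp i')⟩⟩)
    (by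
      rintro ⟨i, i'⟩ F
      by_cases hne : i = i'
      · exact ⟨F, le_rfl, fun h => absurd hne h⟩
      rcases h𝒞.sep (F i) (F i') with ⟨G, hG1, hG2, hG3⟩ | ⟨G, hG, G', hG', n, h⟩
      · refine ⟨Function.update F i G, ?_, fun _ => Or.inl ?_⟩
        · intro j
          by_cases hj : j = i
          · subst hj; rw [Function.update_self]; exact hG1
          · rw [Function.update_of_ne hj]
        · show Hyp (Function.update F i G i)
          rw [Function.update_self]; exact hG3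
      · refine ⟨Function.update (Function.update F i G) i' G', ?_, fun _ => Or.inr ⟨n, ?_⟩⟩
        · intro j
          by_cases hj : j = i'
          · subst hj; rw [Function.update_self]; exact hG'
          · rw [Function.update_of_ne hj]
            by_cases hj' : j = i
            · subst hj'; rw [Function.update_self]; exact hG
            · rw [Function.update_of_ne hj']
        · show ∀ C ∈ 𝒞 n, ¬ (Meet C (Function.update (Function.update F i G) i' G' i) ∧
            Meet C (Function.update (Function.update F i G) i' G' i'))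
          rw [Function.update_self, Function.update_of_ne hne, Function.update_self]
          exact h)
    F
  have hn : ∀ c : ι × ι, ∃ n, c.1 ≠ c.2 →
      Hyp (F' c.1) ∨ ∀ C ∈ 𝒞 n, ¬ (Meet C (F' c.1) ∧ Meet C (F' c.2)) := by
    intro c
    by_cases hc : c.1 ≠ c.2
    · rcases hR c hc with h | ⟨n, h⟩
      · exact ⟨0, fun _ => Or.inl h⟩
      · exact ⟨n, fun _ => Or.inr h⟩
    · exact ⟨0, fun h => absurd h hc⟩
  choose n hn using hn
  obtain ⟨N, hN⟩ := (finite_range n).bddAbove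
  refine ⟨F', hF', N, fun i i' hne => ?_⟩
  rcases hn (i, i') hne with h | h
  · exact Or.inl h
  · exact Or.inr fun C hC => h C (h𝒞.mono _ _ (hN ⟨(i, i'), rfl⟩) hC)

theorem decode {𝒞 : ℕ → Set (ONS X)} (h𝒞 : Sep 𝒞) {F : ι → ONS X} {n N : ℕ} (hnN : n ≤ N)
    (hF : ∀ i i', i ≠ i' → Hyp (F i) ∨ ∀ C ∈ 𝒞 n, ¬ (Meet C (F i) ∧ Meet C (F i'))) {m : ℕ}
    (G : Fin m → ONS X) (hG : ∀ j, G j ∈ 𝒞 N) (hm : ∀ i, ∃ j, Meet (G j) (F i)) :
    ∃ c : ι → Fin m, GoodTup G c ∧
      ∀ V : Set (ι → X), univ.pi (fun i => (G (c i) : Set X)) ⊆ closure V →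
        (V ∩ univ.pi fun i => (F i : Set X)).Nonempty := by
  choose c hc using hm
  refine ⟨c, ?_, ?_⟩
  · intro i i' hne hcc
    rcases hF i i' hne with h | h
    · obtain ⟨K, hK1, hK2⟩ := hc i
      exact h𝒞.hyp N _ (hG (c i)) K hK1 (h.mono hK2)
    · exact absurd ⟨hc i, hcc ▸ hc i'⟩ (h _ (h𝒞.mono _ _ hnN (hG (c i))))
  · intro V hV
    have : ∀ i, ∃ z, z ∈ (G (c i) : Set X) ∧ z ∈ (F i : Set X) := fun i => meet_iff.mp (hc i)
    choose z hz1 hz2 using this
    have hzV : z ∈ closure V := hV (mem_univ_pi.mpr hz1)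
    obtain ⟨w, hw1, hw2⟩ := mem_closure_iff.mp hzV _
      (isOpen_set_pi (s := fun i => (F i : Set X)) finite_univ fun i _ => (F i).2.1)
      (mem_univ_pi.mpr hz2)
    exact ⟨w, hw2, hw1⟩

end

/-- Either finitely many elements can always be shrunk to miss some element, or there are finitely
many atoms meeting everything. -/
theorem spread {P : Type u} [Preorder P] :
    (∀ (m : ℕ) (F : Fin m → P), ∃ F' : Fin m → P, (∀ j, F' j ≤ F j) ∧
      ∃ o, ∀ j, ¬ Meet (F' j) o) ∨
    ∃ 𝒜 : Finset P, (∀ A ∈ 𝒜, Hyp A) ∧ ∀ o, ∃ A ∈ 𝒜, Meet o A := by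
  classical
  by_cases hall : ∀ m, ∃ 𝒪 : Finset P, 𝒪.card = m ∧ ∀ p ∈ 𝒪, ∀ q ∈ 𝒪, Meet p q → p = q
  · left
    intro m F
    obtain ⟨𝒪, hcard, h𝒪⟩ := hall (m + 1)
    have hne : 𝒪.Nonempty := by
      rw [← Finset.card_pos, hcard]; exact Nat.succ_pos m
    obtain ⟨o₀, ho₀⟩ := hne
    have hch : ∀ j, ∃ F' ≤ F j, ∃ o ∈ 𝒪, ∀ o' ∈ 𝒪, o' ≠ o → ¬ Meet F' o' := by
      intro j
      by_cases hj : ∃ o ∈ 𝒪, Meet (F j) o
      · obtain ⟨o, ho, c, hc1, hc2⟩ := hj
        refine ⟨c, hc1, o, ho, fun o' ho' hne hm => hne ?_⟩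
        exact h𝒪 o' ho' o ho (hm.symm.mono le_rfl hc2)
      · push Not at hj
        exact ⟨F j, le_rfl, o₀, ho₀, fun o' ho' _ => hj o' ho'⟩
    choose F' hF' o ho hoo using hch
    have : ∃ o' ∈ 𝒪, o' ∉ Finset.univ.image o := by
      by_contra hcon
      push Not at hcon
      have h1 : 𝒪.card ≤ (Finset.univ.image o).card := Finset.card_le_card hcon
      have h2 : (Finset.univ.image o).card ≤ m := by
        refine Finset.card_image_le.trans ?_
        simp
      omega
    obtain ⟨o', ho', hno⟩ := this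
    refine ⟨F', hF', o', fun j => hoo j o' ho' fun he => hno ?_⟩
    exact Finset.mem_image.mpr ⟨j, Finset.mem_univ _, he.symm⟩
  · right
    push Not at hall
    have hfind := Nat.find_spec hall
    have hmin : ∀ k < Nat.find hall, ∃ 𝒪 : Finset P, 𝒪.card = k ∧
        ∀ p ∈ 𝒪, ∀ q ∈ 𝒪, Meet p q → p = q := by
      intro k hk
      have := Nat.find_min hall hk
      push Not at this
      exact this
    set M := Nat.find hall with hM
    have hM0 : M ≠ 0 := by
      intro h0
      obtain ⟨p, hp, -⟩ := hfind ∅ (by simp [h0])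
      simp at hp
    obtain ⟨𝒜, hcard, hanti⟩ := hmin (M - 1) (by omega)
    refine ⟨𝒜, fun A hA => ?_, fun o => ?_⟩
    · intro b c hb hc
      by_contra hbc
      have hbc' : b ≠ c := fun he => hbc (he ▸ Meet.refl _)
      have hnb : ∀ b ≤ A, ∀ q ∈ 𝒜.erase A, ¬ Meet b q := by
        intro b hb q hq hm
        have hq' := Finset.mem_erase.mp hq
        exact hq'.1 (hanti A hA q hq'.2 (hm.mono hb le_rfl)).symm
      have hb' : b ∉ insert c (𝒜.erase A) := by
        intro h
        rcases Finset.mem_insert.mp h with h | h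
        · exact hbc' h
        · exact hnb b hb b h (Meet.refl _)
      have hc' : c ∉ 𝒜.erase A := fun h => hnb c hc c h (Meet.refl _)
      obtain ⟨p, hp, q, hq, hm, hne⟩ := hfind (insert b (insert c (𝒜.erase A))) (by
        rw [Finset.card_insert_of_notMem hb', Finset.card_insert_of_notMem hc',
          Finset.card_erase_of_mem hA, hcard]
        have := Finset.card_pos.mpr ⟨A, hA⟩
        omega)
      have hnb2 : ∀ b c, b ≤ A → c ≤ A → ¬ Meet b c → ∀ p ∈ insert b (insert c (𝒜.erase A)),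
          Meet b p → b = p := by
        intro b c hb hc hbc p hp hm
        rcases Finset.mem_insert.mp hp with rfl | hp
        · rfl
        · rcases Finset.mem_insert.mp hp with rfl | hp
          · exact absurd hm hbc
          · exact absurd hm (hnb b hb p hp)
      apply hne
      rcases Finset.mem_insert.mp hp with rfl | hp1
      · exact hnb2 p c hb hc hbc q hq hm
      · rcases Finset.mem_insert.mp hp1 with rfl | hp2
        · exact hnb2 p b hc hb (fun h => hbc h.symm) q (by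
            rw [Finset.insert_comm]; exact hq) hm
        · rcases Finset.mem_insert.mp hq with rfl | hq1
          · exact absurd hm.symm (hnb q hb p hp2)
          · rcases Finset.mem_insert.mp hq1 with rfl | hq2
            · exact absurd hm.symm (hnb q hc p hp2)
            · exact hanti p (Finset.mem_of_mem_erase hp2) q (Finset.mem_of_mem_erase hq2) hm
    · by_contra hcon
      push Not at hcon
      have ho' : o ∉ 𝒜 := fun h => hcon o h (Meet.refl _)
      obtain ⟨p, hp, q, hq, hm, hne⟩ := hfind (insert o 𝒜) (by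
        rw [Finset.card_insert_of_notMem ho', hcard]; omega)
      apply hne
      rcases Finset.mem_insert.mp hp with rfl | hp1
      · rcases Finset.mem_insert.mp hq with rfl | hq1
        · rfl
        · exact absurd hm (hcon q hq1)
      · rcases Finset.mem_insert.mp hq with rfl | hq1
        · exact absurd hm.symm (hcon p hp1)
        · exact hanti p hp1 q hq1 hm

end Pool.Agent.Helper63.Pow
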