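import Mathlib

/-!
Selection principles for families with dense union, and free Suslin trees.
-/

namespace Pool.Agent.Helper63.Pow

open Set

universe u v

/-- The families of open sets whose union is dense. -/
def DFam (X : Type u) [TopologicalSpace X] : Set (Set (Set X)) :=
  {𝒰 | (∀ U ∈ 𝒰, IsOpen U) ∧ Dense (⋃₀ 𝒰)}

/-- The families `𝒰` of open sets with dense union such that no member of `𝒰` is dense and every
finite family `ℱ` of nonempty open sets has a member of `𝒰` meeting every member of `ℱ`. -/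
def DOmega (X : Type u) [TopologicalSpace X] : Set (Set (Set X)) :=
  {𝒰 | 𝒰 ∈ DFam X ∧ (∀ U ∈ 𝒰, ¬ (univ : Set X) ⊆ closure U) ∧
    ∀ ℱ : Set (Set X), ℱ.Finite → (∀ F ∈ ℱ, IsOpen F ∧ F.Nonempty) →
      ∃ U ∈ 𝒰, ∀ F ∈ ℱ, (U ∩ F).Nonempty}

/-- The selection principle `S_1(𝔘, 𝔙)`: from every sequence of members of `𝔘` one can choose one
element of each so that the chosen elements form a member of `𝔙`. -/
def S1 {X : Type u} (𝔘 𝔙 : Set (Set (Set X))) : Prop :=
  ∀ 𝒰 : ℕ → Set (Set X), (∀ n, 𝒰 n ∈ 𝔘) →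
    ∃ U : ℕ → Set X, (∀ n, U n ∈ 𝒰 n) ∧ {V | ∃ n, U n = V} ∈ 𝔙

/-- The selection principle `S_fin(𝔘, 𝔙)`: from every sequence of members of `𝔘` one can choose
finitely many elements of each so that the chosen elements form a member of `𝔙`. -/
def Sfin {X : Type u} (𝔘 𝔙 : Set (Set (Set X))) : Prop :=
  ∀ 𝒰 : ℕ → Set (Set X), (∀ n, 𝒰 n ∈ 𝔘) →
    ∃ ℱ : ℕ → Set (Set X), (∀ n, ℱ n ⊆ 𝒰 n ∧ (ℱ n).Finite) ∧ (⋃ n, ℱ n) ∈ 𝔙

/-- Two elements of a partial order are comparable. -/
def Comparable {T : Type u} [PartialOrder T] (s t : T) : Prop := s ≤ t ∨ t ≤ s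

/-- `T` is a Suslin tree: the predecessors of every node are well-ordered, `T` is uncountable, and
all chains and all antichains of `T` are countable. -/
structure IsSuslinTree (T : Type u) [PartialOrder T] : Prop where
  wellOrdered : ∀ t : T, IsWellOrder {s : T // s < t} (fun a b => a.1 < b.1)
  uncountable : ¬ (univ : Set T).Countable
  chains : ∀ C : Set T, (∀ s ∈ C, ∀ t ∈ C, Comparable s t) → C.Countable
  antichains : ∀ A : Set T, (∀ s ∈ A, ∀ t ∈ A, s ≠ t → ¬ Comparable s t) → A.Countable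

/-- `T` is a free Suslin tree: a Suslin tree such that for all finitely many pairwise incomparable
nodes `s 0, …, s (n - 1)` the product of the cones above them satisfies the countable chain
condition, that is, every set `A` of `n`-tuples `x` with `s i ≤ x i` for all `i` such that any two
different members of `A` are incomparable in some coordinate is countable. -/
structure IsFreeSuslinTree (T : Type u) [PartialOrder T] : Prop extends IsSuslinTree T where
  free : ∀ (n : ℕ) (s : Fin n → T), (∀ i j, i ≠ j → ¬ Comparable (s i) (s j)) →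
    ∀ A : Set (Fin n → T), (∀ x ∈ A, ∀ i, s i ≤ x i) →
      (∀ x ∈ A, ∀ y ∈ A, x ≠ y → ∃ i, ¬ Comparable (x i) (y i)) → A.Countable

/-- The countable chain condition: families of pairwise disjoint nonempty open sets are
countable. -/
def Ccc (Y : Type u) [TopologicalSpace Y] : Prop :=
  ∀ 𝒞 : Set (Set Y), (∀ U ∈ 𝒞, IsOpen U ∧ U.Nonempty) →
    (∀ U ∈ 𝒞, ∀ V ∈ 𝒞, U ≠ V → Disjoint U V) → 𝒞.Countable

end Pool.Agent.Helper63.Pow
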