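import Pool.Agent.Helper63.Pow.Tree

/-!
Partial orders: separation by antichains, and the construction of a tree below a bad element.
-/

namespace Pool.Agent.Helper63.Pow

open Set Cardinal

universe u v

section

variable {P : Type u} [Preorder P]

/-- Compatible elements. -/
def Meet (a b : P) : Prop := ∃ c, c ≤ a ∧ c ≤ b

/-- Elements below which all elements are compatible. -/
def Hyp (a : P) : Prop := ∀ b c, b ≤ a → c ≤ a → Meet b c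

/-- Antichains which are predense below `v`. -/
def Pre (v : P) (ℛ : Set P) : Prop :=
  (∀ p ∈ ℛ, ∀ q ∈ ℛ, Meet p q → p = q) ∧ ∀ w ≤ v, ∃ p ∈ ℛ, Meet w p

/-- Nothing below `v` is an atom and countably many antichains are decided densely below `v`. -/
def Bad (v : P) : Prop :=
  (∀ w ≤ v, ¬ Hyp w) ∧ ∀ ℛ : ℕ → Set P, (∀ n, Pre v (ℛ n)) → ∀ w ≤ v, ∃ w' ≤ w,
    ∀ n, ∀ p ∈ ℛ n, ∀ q ∈ ℛ n, Meet w' p → Meet w' q → p = q

/-- A separating sequence. -/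
structure Sep (𝒞 : ℕ → Set P) : Prop where
  down : ∀ n (C C' : P), C ∈ 𝒞 n → C' ≤ C → C' ∈ 𝒞 n
  dense : ∀ n (V : P), ∃ C ∈ 𝒞 n, C ≤ V
  mono : ∀ m n, m ≤ n → 𝒞 n ⊆ 𝒞 m
  hyp : ∀ n, ∀ C ∈ 𝒞 n, ∀ G ≤ C, Hyp G → Hyp C
  sep : ∀ F F' : P, (∃ G ≤ F, G ≤ F' ∧ Hyp G) ∨
    ∃ G ≤ F, ∃ G' ≤ F', ∃ n, ∀ C ∈ 𝒞 n, ¬ (Meet C G ∧ Meet C G')

theorem Meet.symm {a b : P} (h : Meet a b) : Meet b a := by
  obtain ⟨c, h1, h2⟩ := h; exact ⟨c, h2, h1⟩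

theorem Meet.refl (a : P) : Meet a a := ⟨a, le_rfl, le_rfl⟩

theorem Meet.mono {a b a' b' : P} (h : Meet a b) (ha : a ≤ a') (hb : b ≤ b') : Meet a' b' := by
  obtain ⟨c, h1, h2⟩ := h; exact ⟨c, h1.trans ha, h2.trans hb⟩

theorem Hyp.mono {a b : P} (h : Hyp a) (hb : b ≤ a) : Hyp b :=
  fun x y hx hy => h x y (hx.trans hb) (hy.trans hb)

/-- Maximal antichains in a dense set. -/
theorem exists_max_antichain (v : P) (D : Set P) (hD : ∀ w ≤ v, ∃ w' ≤ w, w' ∈ D) :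
    ∃ 𝒬 ⊆ D, Pre v 𝒬 := by
  obtain ⟨𝒬, -, hmax⟩ := zorn_subset_nonempty
    {𝒬 : Set P | 𝒬 ⊆ D ∧ ∀ p ∈ 𝒬, ∀ q ∈ 𝒬, Meet p q → p = q}
    (by
      intro c hc hchain _
      refine ⟨⋃₀ c, ⟨?_, ?_⟩, fun s hs => subset_sUnion_of_mem hs⟩
      · rintro B ⟨s, hs, hB⟩
        exact (hc hs).1 hB
      · rintro B ⟨s, hs, hB⟩ B' ⟨s', hs', hB'⟩ hne
        rcases hchain.total hs hs' with h | h
        · exact (hc hs').2 B (h hB) B' hB' hne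
        · exact (hc hs).2 B hB B' (h hB') hne) ∅ ⟨by simp, by simp⟩
  obtain ⟨m1, m2⟩ := hmax.prop
  refine ⟨𝒬, m1, m2, fun w hw => ?_⟩
  by_contra hcon
  push Not at hcon
  obtain ⟨w', hw', hwD⟩ := hD w hw
  have hno : ∀ p ∈ 𝒬, ¬ Meet w' p := fun p hp hm => hcon p hp (hm.mono hw' le_rfl)
  have hmem : insert w' 𝒬 ∈ {𝒬 : Set P | 𝒬 ⊆ D ∧ ∀ p ∈ 𝒬, ∀ q ∈ 𝒬, Meet p q → p = q} := by
    refine ⟨insert_subset hwD m1, ?_⟩
    intro p hp q hq hm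
    rcases hp with rfl | hp <;> rcases hq with rfl | hq
    · rfl
    · exact absurd hm (hno q hq)
    · exact absurd hm.symm (hno p hp)
    · exact m2 p hp q hq hm
  have hle : insert w' 𝒬 ⊆ 𝒬 := hmax.le_of_ge hmem (subset_insert _ _)
  exact hno w' (hle (mem_insert _ _)) (Meet.refl _)

theorem sep_or_bad : (∃ v : P, Bad v) ∨ ∃ 𝒞 : ℕ → Set P, Sep 𝒞 := by
  classical
  by_cases hbad : ∃ v : P, Bad v
  · exact Or.inl hbad
  right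
  push Not at hbad
  have hgood : ∀ v : P, ∃ w ≤ v, ∃ ℛ : ℕ → Set P, (∀ n, Pre w (ℛ n)) ∧
      (Hyp w ∨ ∀ w' ≤ w, ∃ n, ∃ p ∈ ℛ n, ∃ q ∈ ℛ n, p ≠ q ∧ Meet w' p ∧ Meet w' q) := by
    intro v
    have := hbad v
    unfold Bad at this
    by_cases h1 : ∀ w ≤ v, ¬ Hyp w
    · have h2 : ¬ ∀ ℛ : ℕ → Set P, (∀ n, Pre v (ℛ n)) → ∀ w ≤ v, ∃ w' ≤ w,
          ∀ n, ∀ p ∈ ℛ n, ∀ q ∈ ℛ n, Meet w' p → Meet w' q → p = q := fun h => this ⟨h1, h⟩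
      push Not at h2
      obtain ⟨ℛ, hP, w, hw, hw'⟩ := h2
      refine ⟨w, hw, ℛ, fun n => ⟨(hP n).1, fun x hx => (hP n).2 x (hx.trans hw)⟩, Or.inr ?_⟩
      intro w' hww
      obtain ⟨n, p, hp, q, hq, h3, h4, h5⟩ := hw' w' hww
      exact ⟨n, p, hp, q, hq, h5, h3, h4⟩
    · push Not at h1
      obtain ⟨w, hw, hh⟩ := h1
      refine ⟨w, hw, fun _ => {w}, fun n => ⟨?_, ?_⟩, Or.inl hh⟩
      · rintro p rfl q rfl _; rfl
      · intro x hx; exact ⟨w, rfl, x, le_rfl, hx⟩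
  rcases isEmpty_or_nonempty P with hP | ⟨⟨v₀⟩⟩
  · refine ⟨fun _ => univ, ⟨fun _ _ _ _ _ => mem_univ _, fun _ V => (hP.false V).elim,
      fun _ _ _ => subset_rfl, fun _ C => (hP.false C).elim, fun F => (hP.false F).elim⟩⟩
  -- a maximal antichain of good elements
  obtain ⟨𝒢, h𝒢, hGG⟩ : ∃ 𝒢 ⊆ {w : P | ∃ ℛ : ℕ → Set P, (∀ n, Pre w (ℛ n)) ∧
      (Hyp w ∨ ∀ w' ≤ w, ∃ n, ∃ p ∈ ℛ n, ∃ q ∈ ℛ n, p ≠ q ∧ Meet w' p ∧ Meet w' q)},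
      (∀ p ∈ 𝒢, ∀ q ∈ 𝒢, Meet p q → p = q) ∧ ∀ w, ∃ p ∈ 𝒢, Meet w p := by
    obtain ⟨𝒬, -, hmax⟩ := zorn_subset_nonempty
      {𝒬 : Set P | 𝒬 ⊆ {w : P | ∃ ℛ : ℕ → Set P, (∀ n, Pre w (ℛ n)) ∧
      (Hyp w ∨ ∀ w' ≤ w, ∃ n, ∃ p ∈ ℛ n, ∃ q ∈ ℛ n, p ≠ q ∧ Meet w' p ∧ Meet w' q)} ∧
        ∀ p ∈ 𝒬, ∀ q ∈ 𝒬, Meet p q → p = q}
      (by
        intro c hc hchain _
        refine ⟨⋃₀ c, ⟨?_, ?_⟩, fun s hs => subset_sUnion_of_mem hs⟩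
        · rintro B ⟨s, hs, hB⟩
          exact (hc hs).1 hB
        · rintro B ⟨s, hs, hB⟩ B' ⟨s', hs', hB'⟩ hne
          rcases hchain.total hs hs' with h | h
          · exact (hc hs').2 B (h hB) B' hB' hne
          · exact (hc hs).2 B hB B' (h hB') hne) ∅ ⟨empty_subset _, by simp⟩
    obtain ⟨m1, m2⟩ := hmax.prop
    refine ⟨𝒬, m1, m2, fun w => ?_⟩
    by_contra hcon
    push Not at hcon
    obtain ⟨w', hw', hwD⟩ := hgood w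
    have hno : ∀ p ∈ 𝒬, ¬ Meet w' p := fun p hp hm => hcon p hp (hm.mono hw' le_rfl)
    have hle : insert w' 𝒬 ⊆ 𝒬 := by
      refine hmax.le_of_ge ⟨insert_subset hwD m1, ?_⟩ (subset_insert _ _)
      intro p hp q hq hm
      rcases hp with rfl | hp <;> rcases hq with rfl | hq
      · rfl
      · exact absurd hm (hno q hq)
      · exact absurd hm.symm (hno p hp)
      · exact m2 p hp q hq hm
    exact hno w' (hle (mem_insert _ _)) (Meet.refl _)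
  have h𝒢' : ∀ w ∈ 𝒢, ∃ ℛ : ℕ → Set P, (∀ n, Pre w (ℛ n)) ∧
      (Hyp w ∨ ∀ w' ≤ w, ∃ n, ∃ p ∈ ℛ n, ∃ q ∈ ℛ n, p ≠ q ∧ Meet w' p ∧ Meet w' q) :=
    fun w hw => h𝒢 hw
  choose! ℛ hℛ1 hℛ2 using h𝒢'
  refine ⟨fun n => {c | ∃ g ∈ 𝒢, c ≤ g ∧ ∀ i ≤ n, ∃ p ∈ ℛ g i, c ≤ p}, ?_, ?_, ?_, ?_, ?_⟩
  · rintro n C C' ⟨g, hg, hle, h⟩ hC
    refine ⟨g, hg, hC.trans hle, fun i hi => ?_⟩
    obtain ⟨p, hp, hCp⟩ := h i hi
    exact ⟨p, hp, hC.trans hCp⟩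
  · intro n V
    obtain ⟨g, hg, c₀, hc1, hc2⟩ := hGG.2 V
    have key : ∀ m, ∃ c ≤ c₀, ∀ i < m, ∃ p ∈ ℛ g i, c ≤ p := by
      intro m
      induction m with
      | zero => exact ⟨c₀, le_rfl, by simp⟩
      | succ m ih =>
        obtain ⟨c, hc, h⟩ := ih
        obtain ⟨p, hp, d, hd1, hd2⟩ := (hℛ1 g hg m).2 c (hc.trans hc2)
        refine ⟨d, hd1.trans hc, fun i hi => ?_⟩
        rcases Nat.lt_succ_iff_lt_or_eq.mp hi with hi | rfl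
        · obtain ⟨q, hq, hcq⟩ := h i hi
          exact ⟨q, hq, hd1.trans hcq⟩
        · exact ⟨p, hp, hd2⟩
    obtain ⟨c, hc, h⟩ := key (n + 1)
    exact ⟨c, ⟨g, hg, hc.trans hc2, fun i hi => h i (Nat.lt_succ_of_le hi)⟩, hc.trans hc1⟩
  · rintro m n hmn c ⟨g, hg, hle, h⟩
    exact ⟨g, hg, hle, fun i hi => h i (hi.trans hmn)⟩
  · rintro n C ⟨g, hg, hle, -⟩ G hG hh
    rcases hℛ2 g hg with h1 | h1
    · exact h1.mono hle
    · obtain ⟨m, p, hp, q, hq, hne, ⟨x, hx1, hx2⟩, ⟨y, hy1, hy2⟩⟩ := h1 G (hG.trans hle)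
      exact absurd ((hℛ1 g hg m).1 p hp q hq ((hh x y hx1 hy1).mono hx2 hy2)) hne
  · intro F F'
    obtain ⟨g, hg, F₁, hF1, hF2⟩ := hGG.2 F
    obtain ⟨g', hg', F₁', hF1', hF2'⟩ := hGG.2 F'
    by_cases hgg : g = g'
    · subst hgg
      rcases hℛ2 g hg with h1 | h1
      · obtain ⟨G, hG1, hG2⟩ := h1 F₁ F₁' hF2 hF2'
        exact Or.inl ⟨G, hG1.trans hF1, hG2.trans hF1', h1.mono (hG1.trans hF2)⟩
      · right
        obtain ⟨m, p, hp, q, hq, hne, hmp, hmq⟩ := h1 F₁ hF2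
        obtain ⟨r, hr, G', hG'1, hG'2⟩ := (hℛ1 g hg m).2 F₁' hF2'
        have key : ∀ s ∈ ℛ g m, Meet F₁ s → s ≠ r → ∃ G ≤ F, ∃ G' ≤ F', ∃ n,
            ∀ C ∈ {c | ∃ g ∈ 𝒢, c ≤ g ∧ ∀ i ≤ n, ∃ p ∈ ℛ g i, c ≤ p},
              ¬ (Meet C G ∧ Meet C G') := by
          intro s hs hms hsr
          obtain ⟨G, hG1, hG2⟩ := hms
          refine ⟨G, hG1.trans hF1, G', hG'1.trans hF1', m, ?_⟩
          rintro C ⟨g₂, hg₂, hC1, hC2⟩ ⟨hm1, hm2⟩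
          have h3 : g = g₂ := (hGG.1 g₂ hg₂ g hg (hm1.mono hC1 (hG1.trans hF2))).symm
          subst h3
          obtain ⟨t, ht, hCt⟩ := hC2 m le_rfl
          have h4 : t = s := (hℛ1 g hg m).1 t ht s hs (hm1.mono hCt hG2)
          have h5 : t = r := (hℛ1 g hg m).1 t ht r hr (hm2.mono hCt hG'2)
          exact hsr (h4.symm.trans h5)
        by_cases hpr : p = r
        · exact key q hq hmq fun h => hne (hpr.trans h.symm)
        · exact key p hp hmp hpr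
    · right
      refine ⟨F₁, hF1, F₁', hF1', 0, ?_⟩
      rintro C ⟨g₂, hg₂, hC1, -⟩ ⟨hm1, hm2⟩
      have h3 : g₂ = g := hGG.1 g₂ hg₂ g hg (hm1.mono hC1 hF2)
      have h4 : g₂ = g' := hGG.1 g₂ hg₂ g' hg' (hm2.mono hC1 hF2')
      exact hgg (h3.symm.trans h4)

/-- Refinement of antichains. -/
def Ref (𝒬 ℛ : Set P) : Prop :=
  (∀ q ∈ 𝒬, ∀ p ∈ ℛ, ∀ p' ∈ ℛ, Meet q p → Meet q p' → p = p') ∧
    ∀ p ∈ ℛ, ∃ q ∈ 𝒬, ∃ q' ∈ 𝒬, q ≠ q' ∧ Meet p q ∧ Meet p q'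

/-- Levels. -/
def Level (v : P) (ℛ : Set P) : Prop := (∀ p ∈ ℛ, p ≤ v) ∧ Pre v ℛ

theorem exists_ref {v : P} (hv : Bad v) (𝒮 : Set (Set P)) (hc : 𝒮.Countable)
    (h𝒮 : ∀ ℛ ∈ 𝒮, Level v ℛ) : ∃ 𝒬, Level v 𝒬 ∧ ∀ ℛ ∈ 𝒮, Ref 𝒬 ℛ := by
  have hdec : ∀ w ≤ v, ∃ w' ≤ w, ∀ ℛ ∈ 𝒮, ∀ p ∈ ℛ, ∀ q ∈ ℛ, Meet w' p → Meet w' q → p = q := by
    intro w hw
    rcases 𝒮.eq_empty_or_nonempty with rfl | hne
    · exact ⟨w, le_rfl, by simp⟩
    · obtain ⟨f, hf⟩ := hc.exists_eq_range hne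
      have hfn : ∀ n, Level v (f n) := fun n => h𝒮 _ (hf ▸ mem_range_self n)
      obtain ⟨w', hw', h⟩ := hv.2 f (fun n => (hfn n).2) w hw
      refine ⟨w', hw', fun ℛ hP => ?_⟩
      rw [hf] at hP
      obtain ⟨n, rfl⟩ := hP
      exact h n
  obtain ⟨𝒬, h𝒬, hpre⟩ := exists_max_antichain v
    {w | w ≤ v ∧ ∀ ℛ ∈ 𝒮, (∀ p ∈ ℛ, ∀ q ∈ ℛ, Meet w p → Meet w q → p = q) ∧
      ∀ p ∈ ℛ, ∃ r ≤ p, ¬ Meet r w} (by
    intro w hw
    obtain ⟨w', hw', h⟩ := hdec w hw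
    have hnh := hv.1 w' (hw'.trans hw)
    unfold Hyp at hnh
    push Not at hnh
    obtain ⟨a, b, ha, hb, hab⟩ := hnh
    refine ⟨a, ha.trans hw', (ha.trans hw').trans hw, fun ℛ hP => ⟨?_, ?_⟩⟩
    · intro p hp q hq h1 h2
      exact h ℛ hP p hp q hq (h1.mono ha le_rfl) (h2.mono ha le_rfl)
    · intro p hp
      obtain ⟨p', hp', r, hr1, hr2⟩ := (h𝒮 ℛ hP).2.2 b ((hb.trans hw').trans hw)
      by_cases hpp : Meet w' p
      · have : p = p' := h ℛ hP p hp p' hp' hpp ⟨r, hr1.trans hb, hr2⟩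
        subst this
        exact ⟨r, hr2, fun hm => hab (hm.symm.mono le_rfl hr1)⟩
      · exact ⟨p, le_rfl, fun hm => hpp (hm.symm.mono ha le_rfl)⟩)
  refine ⟨𝒬, ⟨fun p hp => (h𝒬 hp).1, hpre⟩, fun ℛ hP => ⟨?_, ?_⟩⟩
  · intro q hq p hp p' hp' h1 h2
    exact ((h𝒬 hq).2 ℛ hP).1 p hp p' hp' h1 h2
  · intro p hp
    have hpv := (h𝒮 ℛ hP).1 p hp
    obtain ⟨q, hq, hm⟩ := hpre.2 p hpv
    obtain ⟨r, hr, hrq⟩ := ((h𝒬 hq).2 ℛ hP).2 p hp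
    obtain ⟨q', hq', hm'⟩ := hpre.2 r (hr.trans hpv)
    exact ⟨q, hq, q', hq', fun he => hrq (he ▸ hm'), hm, hm'.mono hr le_rfl⟩

end

/-- A tree with countable antichains, countable sets of predecessors and splitting has countable
chains. -/
theorem chain_countable {T : Type u} [PartialOrder T]
    (wo : ∀ t : T, IsWellOrder {s : T // s < t} (fun a b => a.1 < b.1))
    (anti : ∀ A : Set T, (∀ s ∈ A, ∀ t ∈ A, s ≠ t → ¬ Comparable s t) → A.Countable)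
    (hIio : ∀ t : T, (Iio t).Countable) (split : ∀ t : T, ∃ a b, t ≤ a ∧ t ≤ b ∧ ¬ Comparable a b)
    (C : Set T) (hC : ∀ s ∈ C, ∀ t ∈ C, Comparable s t) : C.Countable := by
  obtain ⟨C', hsub, hmax⟩ := zorn_subset_nonempty
    {C : Set T | ∀ s ∈ C, ∀ t ∈ C, Comparable s t}
    (by
      intro c hc hchain _
      refine ⟨⋃₀ c, ?_, fun s hs => subset_sUnion_of_mem hs⟩
      rintro B ⟨s, hs, hB⟩ B' ⟨s', hs', hB'⟩
      rcases hchain.total hs hs' with h | h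
      · exact hc hs' B (h hB) B' hB'
      · exact hc hs B hB B' (h hB')) C hC
  refine Set.Countable.mono hsub ?_
  have m1 := hmax.prop
  have hins : ∀ t, (∀ c ∈ C', Comparable t c) → t ∈ C' := by
    intro t ht
    have hle : insert t C' ⊆ C' := by
      refine hmax.le_of_ge ?_ (subset_insert _ _)
      intro p hp q hq
      rcases hp with rfl | hp <;> rcases hq with rfl | hq
      · exact Or.inl le_rfl
      · exact ht q hq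
      · exact (ht p hp).symm
      · exact m1 p hp q hq
    exact hle (mem_insert _ _)
  have hdown : ∀ c ∈ C', ∀ t ≤ c, t ∈ C' := by
    intro c hc t ht
    apply hins
    intro d hd
    rcases m1 c hc d hd with h | h
    · exact Or.inl (ht.trans h)
    · exact comp_of_le_le wo ht h
  have hEc : {e : T | e ∉ C' ∧ ∀ s, s < e → s ∈ C'}.Countable := by
    apply anti
    rintro s ⟨hs1, hs2⟩ t ⟨ht1, ht2⟩ hne (hle | hle)
    · exact hs1 (ht2 s (lt_of_le_of_ne hle hne))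
    · exact ht1 (hs2 t (lt_of_le_of_ne hle hne.symm))
  refine (hEc.biUnion fun e _ => hIio e).mono fun c hc => ?_
  obtain ⟨a, b, ha, hb, hab⟩ := split c
  have key : ∀ a, c ≤ a → a ∉ C' → c ∈ ⋃ e ∈ {e : T | e ∉ C' ∧ ∀ s, s < e → s ∈ C'}, Iio e := by
    intro a ha haC
    obtain ⟨m, hm, hma, hmin⟩ := exists_min wo (S := {s | s ∉ C'}) (t := a) haC
    refine mem_iUnion₂.mpr ⟨m, ⟨hm, fun s hs => by_contra fun hcon => hmin s hcon hs⟩, ?_⟩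
    rcases comp_of_le_le wo ha hma with h | h
    · exact lt_of_le_of_ne h fun he => hm (he ▸ hc)
    · exact absurd (hdown c hc m h) hm
  by_cases haC : a ∈ C'
  · by_cases hbC : b ∈ C'
    · exact absurd (m1 a haC b hbC) hab
    · exact key b hb hbC
  · exact key a ha haC

section

variable {P : Type u} [Preorder P]

/-- The index set of the levels. -/
abbrev Om : Type u := (Cardinal.aleph.{u} 1).ord.ToType

theorem om_uncountable : ¬ (univ : Set Om.{u}).Countable := by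
  rw [← Cardinal.le_aleph0_iff_set_countable, mk_univ, mk_ord_toType, ← lt_aleph_one_iff]
  exact lt_irrefl _

theorem om_Iio (α : Om.{u}) : (Iio α).Countable := by
  rw [← Cardinal.le_aleph0_iff_set_countable, ← lt_aleph_one_iff]
  refine (mk_Iio_lt α (by simp)).trans_eq ?_
  exact mk_ord_toType _

theorem om_Iic (α : Om.{u}) : (Iic α).Countable := by
  rw [← Iio_insert]
  exact (om_Iio α).insert α

theorem om_gt (α : Om.{u}) : ∃ β, α < β := by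
  by_contra hcon
  push Not at hcon
  exact om_uncountable ((om_Iic α).mono fun β _ => hcon β)

theorem exists_levels {v : P} (hv : Bad v) : ∃ f : Om.{u} → Set P,
    (∀ α, Level v (f α)) ∧ ∀ α β, β < α → Ref (f α) (f β) := by
  classical
  have hg : ∀ 𝒮 : Set (Set P), ∃ 𝒬, 𝒮.Countable → (∀ ℛ ∈ 𝒮, Level v ℛ) →
      Level v 𝒬 ∧ ∀ ℛ ∈ 𝒮, Ref 𝒬 ℛ := by
    intro 𝒮
    by_cases h : 𝒮.Countable ∧ ∀ ℛ ∈ 𝒮, Level v ℛ
    · obtain ⟨𝒬, h1, h2⟩ := exists_ref hv 𝒮 h.1 h.2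
      exact ⟨𝒬, fun _ _ => ⟨h1, h2⟩⟩
    · exact ⟨∅, fun h1 h2 => absurd ⟨h1, h2⟩ h⟩
  choose g hg using hg
  let f : Om.{u} → Set P := (wellFounded_lt (α := Om.{u})).fix
    (fun α ih => g {p | ∃ β, ∃ h : β < α, p = ih β h})
  have hf : ∀ α, f α = g {p | ∃ β, ∃ _ : β < α, p = f β} := by
    intro α
    exact (wellFounded_lt (α := Om.{u})).fix_eq
      (fun α ih => g {p | ∃ β, ∃ h : β < α, p = ih β h}) α
  have hcnt : ∀ α, {p | ∃ β, ∃ _ : β < α, p = f β}.Countable := by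
    intro α
    refine ((om_Iio α).image f).mono ?_
    rintro p ⟨β, hβ, rfl⟩
    exact ⟨β, hβ, rfl⟩
  have hL : ∀ α, Level v (f α) := by
    intro α
    induction α using (wellFounded_lt (α := Om.{u})).induction with
    | _ α ih =>
      rw [hf]
      refine (hg _ (hcnt α) ?_).1
      rintro p ⟨β, hβ, rfl⟩
      exact ih β hβ
  refine ⟨f, hL, fun α β hβ => ?_⟩
  have := (hg _ (hcnt α) (by rintro p ⟨β, hβ, rfl⟩; exact hL β)).2 (f β) ⟨β, hβ, rfl⟩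
  rwa [← hf] at this

end

end Pool.Agent.Helper63.Pow
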