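import Pool.Agent.Helper63.Pow.Forcing

/-!
The tree below a bad element.
-/

namespace Pool.Agent.Helper63.Pow

open Set Cardinal

universe u v

/-- Nodes of the tree given by a sequence of levels. -/
structure Node {P : Type u} (f : Om.{u} → Set P) : Type u where
  lev : Om.{u}
  pt : P
  mem : pt ∈ f lev

section

variable {P : Type u} [Preorder P] {f : Om.{u} → Set P} {v : P}

omit [Preorder P] in
theorem Node.ext' {x y : Node f} (h1 : x.lev = y.lev) (h2 : x.pt = y.pt) : x = y := by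
  cases x; cases y; cases h1; cases h2; rfl

/-- Downward transfer of compatibility. -/
theorem meet_down (hL : ∀ α, Level v (f α)) (hR : ∀ α β, β < α → Ref (f α) (f β))
    {α γ : Om.{u}} (hαγ : α ≤ γ) {p q r : P} (hp : p ∈ f α) (hr : r ∈ f γ)
    (hpr : Meet p r) (hqr : Meet q r) : Meet p q := by
  rcases hαγ.eq_or_lt with rfl | hlt
  · have : p = r := (hL α).2.1 p hp r hr hpr
    subst this
    exact hqr.symm
  · obtain ⟨c, hc1, hc2⟩ := hqr
    have hcv : c ≤ v := hc2.trans ((hL γ).1 r hr)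
    obtain ⟨p', hp', hcp⟩ := (hL α).2.2 c hcv
    have : p = p' := (hR γ α hlt).1 r hr p hp p' hp' hpr.symm (hcp.mono hc2 le_rfl)
    subst this
    exact (hcp.mono hc1 le_rfl).symm

/-- Upward transfer of compatibility. -/
theorem meet_up (hL : ∀ α, Level v (f α)) (hR : ∀ α β, β < α → Ref (f α) (f β))
    {α β : Om.{u}} (hαβ : α ≤ β) {p q r : P} (hp : p ∈ f α) (hq : q ∈ f β)
    (hr : r ≤ v) (hpq : Meet p q) (hqr : ∀ q' ∈ f β, Meet q' r → q' = q) (hne : Meet q r) :
    Meet p r := by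
  rcases hαβ.eq_or_lt with rfl | hlt
  · have : p = q := (hL α).2.1 p hp q hq hpq
    subst this
    exact hne
  · obtain ⟨c, hc1, hc2⟩ := hne
    obtain ⟨p', hp', hcp⟩ := (hL α).2.2 c (hc2.trans hr)
    have : p = p' := (hR β α hlt).1 q hq p hp p' hp' hpq.symm (hcp.mono hc1 le_rfl)
    subst this
    exact (hcp.mono hc2 le_rfl).symm

/-- The order of the nodes. -/
@[instance_reducible]
def nodeOrder (hL : ∀ α, Level v (f α)) (hR : ∀ α β, β < α → Ref (f α) (f β)) :
    PartialOrder (Node f) where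
  le x y := x.lev ≤ y.lev ∧ Meet x.pt y.pt
  le_refl x := ⟨le_rfl, Meet.refl _⟩
  le_trans x y z h1 h2 := by
    refine ⟨h1.1.trans h2.1, ?_⟩
    refine meet_up hL hR h1.1 x.mem y.mem ((hL z.lev).1 _ z.mem) h1.2 ?_ h2.2
    intro q' hq' hm
    rcases h2.1.eq_or_lt with he | hlt
    · have h3 : y.pt = z.pt := (hL z.lev).2.1 _ (he ▸ y.mem) _ z.mem h2.2
      exact (hL y.lev).2.1 _ hq' _ y.mem (h3 ▸ hm)
    · exact (hR z.lev y.lev hlt).1 z.pt z.mem q' hq' y.pt y.mem hm.symm h2.2.symm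
  le_antisymm x y h1 h2 := by
    have he : x.lev = y.lev := le_antisymm h1.1 h2.1
    exact Node.ext' he ((hL y.lev).2.1 _ (he ▸ x.mem) _ y.mem h1.2)

theorem tree_of_bad (hv : Bad v)
    (hbox : ∀ (n : ℕ) (V : Fin n → P), (∀ i j, i ≠ j → ¬ Meet (V i) (V j)) →
      ∀ 𝒜 : Set (Fin n → P), (∀ B ∈ 𝒜, ∀ i, B i ≤ V i) →
        (∀ B ∈ 𝒜, ∀ B' ∈ 𝒜, B ≠ B' → ∃ i, ¬ Meet (B i) (B' i)) → 𝒜.Countable) :
    ∃ (T : Type u) (_ : PartialOrder T) (o : T → P), IsFreeSuslinTree T ∧
      (∀ t : T, ¬ (Ici t).Countable) ∧ ∀ s t, ¬ Comparable s t → ¬ Meet (o s) (o t) := by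
  classical
  obtain ⟨f, hL, hR⟩ := exists_levels hv
  let _ : PartialOrder (Node f) := nodeOrder hL hR
  have hle : ∀ x y : Node f, x ≤ y ↔ x.lev ≤ y.lev ∧ Meet x.pt y.pt := fun x y => Iff.rfl
  have hlt : ∀ x y : Node f, x < y → x.lev < y.lev := by
    intro x y hxy
    refine lt_of_le_of_ne ((hle x y).mp hxy.le).1 fun he => ?_
    exact hxy.ne (Node.ext' he ((hL y.lev).2.1 _ (he ▸ x.mem) _ y.mem ((hle x y).mp hxy.le).2))
  have hcomp : ∀ x y : Node f, Meet x.pt y.pt → Comparable x y := by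
    intro x y hm
    rcases le_total x.lev y.lev with h | h
    · exact Or.inl ((hle x y).mpr ⟨h, hm⟩)
    · exact Or.inr ((hle y x).mpr ⟨h, hm.symm⟩)
  have hlow : ∀ x y z : Node f, x ≤ z → y ≤ z → Comparable x y := by
    intro x y z hx hy
    apply hcomp
    exact meet_down hL hR hx.1 x.mem z.mem hx.2 hy.2
  have wo : ∀ t : Node f, IsWellOrder {s : Node f // s < t} (fun a b => a.1 < b.1) := by
    intro t
    refine { trichotomous := ?tri, wf := ?wf }
    case tri =>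
      intro a b hab hba
      rcases hlow a.1 b.1 t a.2.le b.2.le with h | h
      · exact Subtype.ext (h.eq_of_not_lt hab)
      · exact Subtype.ext (h.eq_of_not_lt hba).symm
    case wf =>
      refine Subrelation.wf (r := InvImage (· < ·) (fun a : {s : Node f // s < t} => a.1.lev))
        ?_ (InvImage.wf _ wellFounded_lt)
      intro a b hab
      exact hlt _ _ hab
  have hcone : ∀ t : Node f, ¬ (Ici t).Countable := by
    intro t hc
    have h1 : (Iic t.lev ∪ (Node.lev '' (Ici t))).Countable := (om_Iic _).union (hc.image _)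
    apply om_uncountable
    refine h1.mono fun β _ => ?_
    rcases le_total β t.lev with h | h
    · exact Or.inl h
    · obtain ⟨q, hq, hm⟩ := (hL β).2.2 t.pt ((hL t.lev).1 _ t.mem)
      exact Or.inr ⟨⟨β, q, hq⟩, (hle _ _).mpr ⟨h, hm⟩, rfl⟩
  have hsplit : ∀ t : Node f, ∃ a b, t ≤ a ∧ t ≤ b ∧ ¬ Comparable a b := by
    intro t
    obtain ⟨β, hβ⟩ := om_gt t.lev
    obtain ⟨q, hq, q', hq', hne, h1, h2⟩ := (hR β t.lev hβ).2 t.pt t.mem
    refine ⟨⟨β, q, hq⟩, ⟨β, q', hq'⟩, (hle _ _).mpr ⟨hβ.le, h1⟩, (hle _ _).mpr ⟨hβ.le, h2⟩, ?_⟩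
    rintro (h | h)
    · exact hne ((hL β).2.1 _ hq _ hq' h.2)
    · exact hne ((hL β).2.1 _ hq' _ hq h.2).symm
  have hIio : ∀ t : Node f, (Iio t).Countable := by
    intro t
    refine countable_of_injective_of_countable_image (f := Node.lev) ?_
      ((om_Iio t.lev).mono ?_)
    · intro x hx y hy hxy
      rcases hlow x y t (le_of_lt hx) (le_of_lt hy) with h | h
      · exact h.eq_of_not_lt fun h' => (hlt _ _ h').ne hxy
      · exact (h.eq_of_not_lt fun h' => (hlt _ _ h').ne hxy.symm).symm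
    · rintro _ ⟨x, hx, rfl⟩
      exact hlt _ _ hx
  have hfree : ∀ (n : ℕ) (s : Fin n → Node f), (∀ i j, i ≠ j → ¬ Comparable (s i) (s j)) →
    ∀ A : Set (Fin n → Node f), (∀ x ∈ A, ∀ i, s i ≤ x i) →
      (∀ x ∈ A, ∀ y ∈ A, x ≠ y → ∃ i, ¬ Comparable (x i) (y i)) → A.Countable := by
    intro n s hs A hA1 hA2
    have hB : ∀ x ∈ A, ∃ B : Fin n → P, ∀ i, B i ≤ (s i).pt ∧ B i ≤ (x i).pt := by
      intro x hx
      have : ∀ i, ∃ b, b ≤ (s i).pt ∧ b ≤ (x i).pt := fun i => (hA1 x hx i).2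
      choose B hB using this
      exact ⟨B, hB⟩
    have : Nonempty (Fin n → P) := ⟨fun _ => v⟩
    choose! B hB using hB
    have hdis : ∀ x ∈ A, ∀ y ∈ A, x ≠ y → ∃ i, ¬ Meet (B x i) (B y i) := by
      intro x hx y hy hne
      obtain ⟨i, hi⟩ := hA2 x hx y hy hne
      refine ⟨i, fun hm => hi (hcomp _ _ ?_)⟩
      exact hm.mono (hB x hx i).2 (hB y hy i).2
    have hinj : InjOn B A := by
      intro x hx y hy hxy
      by_contra hne
      obtain ⟨i, hi⟩ := hdis x hx y hy hne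
      rw [hxy] at hi
      exact hi (Meet.refl _)
    refine countable_of_injective_of_countable_image hinj ?_
    refine hbox n (fun i => (s i).pt) (fun i j hij hm => hs i j hij (hcomp _ _ hm)) _ ?_ ?_
    · rintro _ ⟨x, hx, rfl⟩ i
      exact (hB x hx i).1
    · rintro _ ⟨x, hx, rfl⟩ _ ⟨y, hy, rfl⟩ hne
      exact hdis x hx y hy fun he => hne (by rw [he])
  have hanti : ∀ A : Set (Node f), (∀ s ∈ A, ∀ t ∈ A, s ≠ t → ¬ Comparable s t) →
      A.Countable := by
    intro A hA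
    have hinj : InjOn (fun (x : Node f) (_ : Fin 1) => x.pt) A := by
      intro x hx y hy hxy
      by_contra hne
      have h1 : x.pt = y.pt := congrFun hxy 0
      exact hA x hx y hy hne (hcomp _ _ (h1 ▸ Meet.refl _))
    refine countable_of_injective_of_countable_image hinj ?_
    refine hbox 1 (fun _ => v) (fun i j hij => absurd (Subsingleton.elim i j) hij) _ ?_ ?_
    · rintro _ ⟨x, hx, rfl⟩ i
      exact (hL x.lev).1 _ x.mem
    · rintro _ ⟨x, hx, rfl⟩ _ ⟨y, hy, rfl⟩ hne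
      refine ⟨0, fun hm => ?_⟩
      have hxy : x ≠ y := fun he => hne (by rw [he])
      exact hA x hx y hy hxy (hcomp _ _ hm)
  have hunc : ¬ (univ : Set (Node f)).Countable := by
    intro hc
    apply om_uncountable
    refine (hc.image Node.lev).mono fun β _ => ?_
    obtain ⟨q, hq, -⟩ := (hL β).2.2 v le_rfl
    exact ⟨⟨β, q, hq⟩, mem_univ _, rfl⟩
  refine ⟨Node f, inferInstance, Node.pt, ⟨⟨wo, hunc, ?_, hanti⟩, hfree⟩, hcone,
    fun s t hst hm => hst (hcomp s t hm)⟩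
  exact chain_countable wo hanti hIio hsplit

end

end Pool.Agent.Helper63.Pow
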