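import Pool.Agent.Helper63.Pow.Tree

/-!
A space with a `π`-base which is a pruned free Suslin tree satisfies `S_1(D_Ω, D_Ω)`, but its square
does not satisfy `S_fin(D_Ω, D_Ω)`.
-/

namespace Pool.Agent.Helper63.Pow

open Set

universe u v

/-- A family of open sets of `X` indexed by the nodes of a tree which forms a `π`-base. -/
structure PiBase (T : Type u) [PartialOrder T] (X : Type u) [TopologicalSpace X]
    (o : T → Set X) : Prop where
  isOpen : ∀ t, IsOpen (o t)
  nonempty : ∀ t, (o t).Nonempty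
  anti : ∀ s t, s ≤ t → o t ⊆ o s
  disj : ∀ s t, ¬ Comparable s t → Disjoint (o s) (o t)
  pi : ∀ U : Set X, IsOpen U → U.Nonempty → ∃ t, o t ⊆ U

section

variable {T : Type u} [PartialOrder T]

omit [PartialOrder T] in
theorem exists_closed (c : (k : ℕ) → (Fin k → T) → Set T)
    (x : T) (hc : ∀ k s, (c k s).Countable) :
    ∃ M : Set T, M.Countable ∧ x ∈ M ∧ ∀ (k : ℕ) (s : Fin k → T), (∀ i, s i ∈ M) → c k s ⊆ M := by
  let step : Set T → Set T := fun S => S ∪ ⋃ p : Σ k, Fin k → S, c p.1 fun i => (p.2 i : T)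
  have hstep : ∀ S : Set T, S.Countable → (step S).Countable := by
    intro S hS
    have := hS.to_subtype
    exact hS.union (countable_iUnion fun p => hc _ _)
  let M : ℕ → Set T := fun n => step^[n] {x}
  have hM : ∀ n, (M n).Countable := by
    intro n
    induction n with
    | zero => exact countable_singleton x
    | succ n ih =>
      show (step^[n + 1] {x}).Countable
      rw [Function.iterate_succ_apply']
      exact hstep _ ih
  have hmono : ∀ n, M n ⊆ M (n + 1) := by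
    intro n
    show M n ⊆ step^[n + 1] {x}
    rw [Function.iterate_succ_apply']
    exact subset_union_left
  have hmono' : Monotone M := monotone_nat_of_le_succ hmono
  refine ⟨⋃ n, M n, countable_iUnion hM, mem_iUnion.mpr ⟨0, mem_singleton x⟩, ?_⟩
  intro k s hs
  have : ∃ n, ∀ i, s i ∈ M n := by
    have h1 : ∀ i, ∃ n, s i ∈ M n := fun i => mem_iUnion.mp (hs i)
    choose f hf using h1
    obtain ⟨N, hN⟩ := (finite_range f).bddAbove
    exact ⟨N, fun i => hmono' (hN ⟨i, rfl⟩) (hf i)⟩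
  obtain ⟨n, hn⟩ := this
  refine Subset.trans ?_ (subset_iUnion M (n + 1))
  show c k s ⊆ step^[n + 1] {x}
  rw [Function.iterate_succ_apply']
  refine Subset.trans ?_ subset_union_right
  exact subset_iUnion (fun p : Σ k, Fin k → M n => c p.1 fun i => (p.2 i : T))
    ⟨k, fun i => ⟨s i, hn i⟩⟩

theorem exists_ub (h : IsSuslinTree T) (e : T) (he : (Iio e).Nonempty) (S : Set T)
    (hS : S.Finite) : (∀ x ∈ S, x < e) → ∃ m, m < e ∧ ∀ x ∈ S, x ≤ m := by
  induction S, hS using Set.Finite.induction_on with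
  | empty =>
    intro _
    obtain ⟨m, hm⟩ := he
    exact ⟨m, hm, by simp⟩
  | insert _ _ ih =>
    rename_i a s _ _
    intro hx
    obtain ⟨m, hm, hmx⟩ := ih fun x hxs => hx x (mem_insert_of_mem _ hxs)
    have ha : a < e := hx a (mem_insert _ _)
    rcases comp_of_le_le h.wellOrdered ha.le hm.le with h1 | h1
    · refine ⟨m, hm, fun x hxs => ?_⟩
      rcases hxs with rfl | hxs
      · exact h1
      · exact hmx x hxs
    · refine ⟨a, ha, fun x hxs => ?_⟩
      rcases hxs with rfl | hxs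
      · exact le_rfl
      · exact (hmx x hxs).trans h1

/-- Maximal antichains in a set of tuples. -/
theorem exists_maxanti {k : ℕ} (D : Set (Fin k → T)) : ∃ 𝒜 ⊆ D,
    (∀ x ∈ 𝒜, ∀ y ∈ 𝒜, x ≠ y → ∃ i, ¬ Comparable (x i) (y i)) ∧
      ∀ x ∈ D, ∃ a ∈ 𝒜, ∀ i, Comparable (a i) (x i) := by
  obtain ⟨𝒜, -, hmax⟩ := zorn_subset_nonempty
    {𝒜 : Set (Fin k → T) | 𝒜 ⊆ D ∧ ∀ x ∈ 𝒜, ∀ y ∈ 𝒜, x ≠ y → ∃ i, ¬ Comparable (x i) (y i)}
    (by
      intro c hc hchain _
      refine ⟨⋃₀ c, ⟨?_, ?_⟩, fun s hs => subset_sUnion_of_mem hs⟩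
      · rintro B ⟨s, hs, hB⟩
        exact (hc hs).1 hB
      · rintro B ⟨s, hs, hB⟩ B' ⟨s', hs', hB'⟩ hne
        rcases hchain.total hs hs' with h | h
        · exact (hc hs').2 B (h hB) B' hB' hne
        · exact (hc hs).2 B hB B' (h hB') hne) ∅ ⟨by simp, by simp⟩
  obtain ⟨m1, m2⟩ := hmax.prop
  refine ⟨𝒜, m1, m2, fun x hx => ?_⟩
  by_contra hcon
  push Not at hcon
  have hmem : insert x 𝒜 ∈ {𝒜 : Set (Fin k → T) | 𝒜 ⊆ D ∧
      ∀ x ∈ 𝒜, ∀ y ∈ 𝒜, x ≠ y → ∃ i, ¬ Comparable (x i) (y i)} := by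
    refine ⟨insert_subset hx m1, ?_⟩
    intro p hp q hq hne
    rcases hp with rfl | hp <;> rcases hq with rfl | hq
    · exact absurd rfl hne
    · obtain ⟨i, hi⟩ := hcon q hq
      exact ⟨i, fun h => hi h.symm⟩
    · exact hcon p hp
    · exact m2 p hp q hq hne
  have hle : insert x 𝒜 ⊆ 𝒜 := hmax.le_of_ge hmem (subset_insert _ _)
  obtain ⟨i, hi⟩ := hcon x (hle (mem_insert _ _))
  exact hi (Or.inl le_rfl)

theorem S1_tree (h : IsFreeSuslinTree T) (pr : ∀ t : T, ¬ (Ici t).Countable)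
    {X : Type u} [TopologicalSpace X] {o : T → Set X} (ho : PiBase T X o) :
    S1 (DOmega X) (DOmega X) := by
  classical
  intro 𝒰 h𝒰
  have hS := h.toIsSuslinTree
  -- the requirement sets
  let D : (n k : ℕ) → (Fin k → T) → Set (Fin k → T) := fun n k s =>
    {x | (∀ i, s i ≤ x i) ∧ ∃ U ∈ 𝒰 n, ∀ i, o (x i) ⊆ U}
  have hD : ∀ (n k : ℕ) (s : Fin k → T), ∃ 𝒜 ⊆ D n k s,
    (∀ x ∈ 𝒜, ∀ y ∈ 𝒜, x ≠ y → ∃ i, ¬ Comparable (x i) (y i)) ∧
      ∀ x ∈ D n k s, ∃ a ∈ 𝒜, ∀ i, Comparable (a i) (x i) := fun n k s => exists_maxanti _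
  choose 𝒜 h𝒜1 h𝒜2 h𝒜3 using hD
  have hpre : ∀ (n k : ℕ) (s y : Fin k → T), (∀ i, s i ≤ y i) →
      ∃ a ∈ 𝒜 n k s, ∀ i, Comparable (a i) (y i) := by
    intro n k s y hy
    obtain ⟨U, hU, hF⟩ := (h𝒰 n).2.2 (range fun i => o (y i)) (finite_range _) (by
      rintro F ⟨i, rfl⟩; exact ⟨ho.isOpen _, ho.nonempty _⟩)
    have : ∀ i, ∃ x, o x ⊆ U ∧ y i ≤ x := by
      intro i
      obtain ⟨x, hx⟩ := ho.pi _ (((h𝒰 n).1.1 U hU).inter (ho.isOpen (y i))) (hF _ ⟨i, rfl⟩)
      have hc : Comparable x (y i) := by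
        by_contra hc
        obtain ⟨z, hz⟩ := ho.nonempty x
        exact disjoint_left.mp (ho.disj _ _ hc) hz (hx hz).2
      rcases hc with hc | hc
      · exact ⟨y i, (ho.anti _ _ hc).trans (hx.trans inter_subset_left), le_rfl⟩
      · exact ⟨x, hx.trans inter_subset_left, hc⟩
    choose x hx1 hx2 using this
    obtain ⟨a, ha, hax⟩ := h𝒜3 n k s x ⟨fun i => (hy i).trans (hx2 i), U, hU, hx1⟩
    refine ⟨a, ha, fun i => ?_⟩
    rcases hax i with h1 | h1
    · exact comp_of_le_le hS.wellOrdered h1 (hx2 i)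
    · exact Or.inr ((hx2 i).trans h1)
  -- the closure operations
  let c : (k : ℕ) → (Fin k → T) → Set T := fun k s =>
    (⋃ i, (Iio (s i) ∪ {r | Iio r = Iio (s i)})) ∪
      ⋃ (_ : ∀ i j, i ≠ j → ¬ Comparable (s i) (s j)), ⋃ n, ⋃ a ∈ 𝒜 n k s, range a
  have hcc : ∀ k s, (c k s).Countable := by
    intro k s
    refine (countable_iUnion fun i => ?_).union ?_
    · refine (countable_Iio hS _).union (hS.antichains _ ?_)
      rintro r hr r' hr' hne (hle | hle)
      · have : r ∈ Iio r' := lt_of_le_of_ne hle hne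
        rw [show Iio r' = Iio r from hr'.trans hr.symm] at this
        exact lt_irrefl _ this
      · have : r' ∈ Iio r := lt_of_le_of_ne hle hne.symm
        rw [show Iio r = Iio r' from hr.trans hr'.symm] at this
        exact lt_irrefl _ this
    · refine countable_iUnion fun hs => countable_iUnion fun n => ?_
      refine Set.Countable.biUnion ?_ fun a _ => countable_range a
      exact h.free k s hs _ (fun x hx => (h𝒜1 n k s hx).1) (h𝒜2 n k s)
  have hne : Nonempty T := by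
    by_contra hcon
    have := not_nonempty_iff.mp hcon
    exact hS.uncountable (Set.to_countable _)
  have x₀ : T := hne.some
  obtain ⟨M, hMc, hx₀, hM⟩ := exists_closed c x₀ hcc
  have hMdown : ∀ s ∈ M, ∀ t, t ≤ s → t ∈ M := by
    intro s hs t ht
    rcases ht.eq_or_lt with rfl | ht
    · exact hs
    · refine hM 1 (fun _ => s) (fun _ => hs) ?_
      left
      exact mem_iUnion.mpr ⟨0, Or.inl ht⟩
  have hMsib : ∀ s ∈ M, ∀ t, Iio t = Iio s → t ∈ M := by
    intro s hs t ht
    refine hM 1 (fun _ => s) (fun _ => hs) ?_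
    left
    exact mem_iUnion.mpr ⟨0, Or.inr ht⟩
  have hManti : ∀ (k : ℕ) (s : Fin k → T), (∀ i, s i ∈ M) →
      (∀ i j, i ≠ j → ¬ Comparable (s i) (s j)) → ∀ n, ∀ a ∈ 𝒜 n k s, ∀ i, a i ∈ M := by
    intro k s hs hinc n a ha i
    refine hM k s hs ?_
    right
    simp only [mem_iUnion]
    exact ⟨hinc, n, a, ha, i, rfl⟩
  -- minimal nodes outside `M`
  set E : Set T := {e | e ∉ M ∧ ∀ s, s < e → s ∈ M} with hE
  have hEc : E.Countable := by
    apply hS.antichains
    rintro s ⟨hs1, hs2⟩ t ⟨ht1, ht2⟩ hne (hle | hle)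
    · exact hs1 (ht2 s (lt_of_le_of_ne hle hne))
    · exact ht1 (hs2 t (lt_of_le_of_ne hle hne.symm))
  have hEx : ∀ t, t ∉ M → ∃ e ∈ E, e ≤ t := by
    intro t ht
    obtain ⟨m, hm, hmt, hmin⟩ := exists_min hS.wellOrdered (S := {s | s ∉ M}) (t := t) ht
    exact ⟨m, ⟨hm, fun s hs => by_contra fun hcon => hmin s hcon hs⟩, hmt⟩
  have hEne : ∀ e ∈ E, (Iio e).Nonempty := by
    intro e he
    by_contra hcon
    rw [not_nonempty_iff_eq_empty] at hcon
    obtain ⟨m, -, hm, hmin⟩ := exists_min hS.wellOrdered (S := (univ : Set T)) (t := x₀)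
      (mem_univ _)
    have hm' : Iio m = ∅ := by
      rw [eq_empty_iff_forall_notMem]
      exact fun s hs => hmin s (mem_univ _) hs
    exact he.1 (hMsib m (hMdown x₀ hx₀ m hm) e (hcon.trans hm'.symm))
  -- finite sets of branches
  have hclaim : ∀ n, ∀ B : Set (Set T), B.Finite → B ⊆ (fun e => Iio e) '' E →
      ∃ U ∈ 𝒰 n, ∀ b ∈ B, ∃ y ∈ b, o y ⊆ U := by
    intro n B hB hBE
    obtain ⟨k, b, hbinj, hbr⟩ := hB.fin_param
    have h1 : ∀ i, ∃ e, e ∈ E ∧ Iio e = b i := fun i => hBE (hbr ▸ mem_range_self i)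
    choose e heE heb using h1
    have hsep : ∀ i j, i ≠ j → ∃ s, s < e i ∧ ¬ s < e j := by
      intro i j hij
      by_contra hcon
      push Not at hcon
      -- Iio (e i) ⊆ Iio (e j)
      have hss : ∃ s ∈ {s | s < e j ∧ ¬ s < e i}, True := by
        by_contra hcon2
        push Not at hcon2
        have : Iio (e i) = Iio (e j) := by
          apply Subset.antisymm
          · exact fun s hs => hcon s hs
          · intro s hs
            by_contra hs'
            exact hcon2 s ⟨hs, hs'⟩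
        rw [heb, heb] at this
        exact hij (hbinj this)
      obtain ⟨s, hs, -⟩ := hss
      obtain ⟨m, ⟨hm1, hm2⟩, -, hmin⟩ := exists_min hS.wellOrdered hs
      have : Iio (e i) = Iio m := by
        apply Subset.antisymm
        · intro r hr
          rcases comp_of_le_le hS.wellOrdered (hcon r hr).le hm1.le with h2 | h2
          · rcases h2.eq_or_lt with rfl | h2
            · exact absurd hr hm2
            · exact h2
          · exact absurd (lt_of_le_of_lt h2 hr) hm2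
        · intro r hr
          by_contra hr'
          exact hmin r ⟨lt_trans hr hm1, hr'⟩ hr
      exact (heE i).1 (hMsib m ((heE j).2 m hm1) (e i) this)
    choose! s hs1 hs2 using hsep
    have hub : ∀ i, ∃ m, m < e i ∧ ∀ x ∈ {x | ∃ j, i ≠ j ∧ x = s i j}, x ≤ m := by
      intro i
      refine exists_ub hS (e i) (hEne _ (heE i)) _ ?_ ?_
      · exact (finite_range (s i)).subset (by rintro x ⟨j, -, rfl⟩; exact ⟨j, rfl⟩)
      · rintro x ⟨j, hij, rfl⟩
        exact hs1 i j hij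
    choose m hm1 hm2 using hub
    have hinc : ∀ i j, i ≠ j → ¬ Comparable (m i) (m j) := by
      rintro i j hij (hle | hle)
      · exact hs2 i j hij (((hm2 i _ ⟨j, hij, rfl⟩).trans hle).trans_lt (hm1 j))
      · exact hs2 j i hij.symm (((hm2 j _ ⟨i, hij.symm, rfl⟩).trans hle).trans_lt (hm1 i))
    obtain ⟨a, ha, hae⟩ := hpre n k m e fun i => (hm1 i).le
    have haM := hManti k m (fun i => (heE i).2 _ (hm1 i)) hinc n a ha
    obtain ⟨-, U, hU, haU⟩ := h𝒜1 n k m ha
    refine ⟨U, hU, fun b' hb' => ?_⟩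
    rw [← hbr] at hb'
    obtain ⟨i, rfl⟩ := hb'
    refine ⟨a i, ?_, haU i⟩
    rw [← heb i]
    rcases hae i with h2 | h2
    · rcases h2.eq_or_lt with h3 | h3
      · exact absurd (h3 ▸ haM i) (heE i).1
      · exact h3
    · exact absurd (hMdown _ (haM i) _ h2) (heE i).1
  -- the selection
  have hcf := countable_ofPred_finite_subset (hEc.image (fun e => Iio e))
  obtain ⟨f, hf⟩ := hcf.exists_eq_range ⟨∅, finite_empty, empty_subset _⟩
  have hfn : ∀ n, (f n).Finite ∧ f n ⊆ (fun e => Iio e) '' E := by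
    intro n
    have : f n ∈ range f := ⟨n, rfl⟩
    rw [← hf] at this
    exact this
  have hsel : ∀ n, ∃ U ∈ 𝒰 n, ∀ b ∈ f n, ∃ y ∈ b, o y ⊆ U := fun n =>
    hclaim n _ (hfn n).1 (hfn n).2
  choose U hU hUb using hsel
  refine ⟨U, hU, ?_⟩
  apply mem_DOmega
  · rintro _ ⟨n, rfl⟩
    exact (h𝒰 n).1.1 _ (hU n)
  · rintro _ ⟨n, rfl⟩
    exact (h𝒰 n).2.1 _ (hU n)
  · intro ℱ hℱ hop
    have hch : ∀ F ∈ ℱ, ∃ t, o t ⊆ F ∧ ∃ e ∈ E, e ≤ t := by
      intro F hF
      obtain ⟨x, hx⟩ := ho.pi F (hop F hF).1 (hop F hF).2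
      have : ∃ t ∈ Ici x, t ∉ M := by
        by_contra hcon
        push Not at hcon
        exact pr x (hMc.mono hcon)
      obtain ⟨t, ht, htM⟩ := this
      obtain ⟨e, he, het⟩ := hEx t htM
      exact ⟨t, (ho.anti _ _ ht).trans hx, e, he, het⟩
    choose! t ht e he het using hch
    have hmem : (fun F => Iio (e F)) '' ℱ ∈ range f := by
      rw [← hf]
      refine ⟨hℱ.image _, ?_⟩
      rintro _ ⟨F, hF, rfl⟩
      exact ⟨e F, he F hF, rfl⟩
    obtain ⟨n, hn⟩ := hmem
    refine ⟨U n, ⟨n, rfl⟩, fun F hF => ?_⟩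
    obtain ⟨y, hy1, hy2⟩ := hUb n (Iio (e F)) (by rw [hn]; exact ⟨F, hF, rfl⟩)
    obtain ⟨z, hz⟩ := ho.nonempty (t F)
    exact ⟨z, hy2 (ho.anti _ _ ((le_of_lt hy1).trans (het F hF)) hz), ht F hF hz⟩

/-- In the square of a space with `S_fin(D_Ω, D_Ω)` cellular families are countable. -/
theorem not_Sfin_square (h : IsSuslinTree T) (pr : ∀ t : T, ¬ (Ici t).Countable)
    {X : Type u} [TopologicalSpace X] {o : T → Set X} (ho : ∀ t, IsOpen (o t) ∧ (o t).Nonempty)
    (hdis : ∀ s t, ¬ Comparable s t → Disjoint (o s) (o t)) :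
    ∃ 𝒞 : Set (ONS (Fin 2 → X)), ¬ 𝒞.Countable ∧
      ∀ U ∈ 𝒞, ∀ V ∈ 𝒞, U ≠ V → Disjoint (U : Set (Fin 2 → X)) V := by
  obtain ⟨𝒜, hunc, h𝒜⟩ := square_not_ccc h pr
  let B : T × T → ONS (Fin 2 → X) := fun p =>
    ⟨(fun x => x 0) ⁻¹' (o p.1) ∩ (fun x => x 1) ⁻¹' (o p.2),
      ((ho p.1).1.preimage (continuous_apply 0)).inter
        ((ho p.2).1.preimage (continuous_apply 1)),
      ⟨![(ho p.1).2.some, (ho p.2).2.some], (ho p.1).2.some_mem, (ho p.2).2.some_mem⟩⟩
  have hdis : ∀ p ∈ 𝒜, ∀ q ∈ 𝒜, p ≠ q → Disjoint (B p : Set (Fin 2 → X)) (B q) := by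
    intro p hp q hq hne
    rw [disjoint_left]
    rintro x ⟨hx1, hx2⟩ ⟨hx3, hx4⟩
    rcases h𝒜 p hp q hq hne with h1 | h1
    · exact disjoint_left.mp (hdis _ _ h1) hx1 hx3
    · exact disjoint_left.mp (hdis _ _ h1) hx2 hx4
  have hinj : InjOn B 𝒜 := by
    intro p hp q hq hpq
    by_contra hne
    have h1 := hdis p hp q hq hne
    rw [hpq, disjoint_self] at h1
    exact (B q).2.2.ne_empty h1
  refine ⟨B '' 𝒜, fun hc => hunc (countable_of_injective_of_countable_image hinj hc), ?_⟩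
  rintro _ ⟨p, hp, rfl⟩ _ ⟨q, hq, rfl⟩ hne
  exact hdis p hp q hq fun he => hne (by rw [he])

end

/-- `S_fin(D_Ω, D_Ω)` implies the countable chain condition. -/
theorem ccc_of_Sfin {Y : Type u} [TopologicalSpace Y] (hY : Sfin (DOmega Y) (DOmega Y))
    (𝒞 : Set (ONS Y)) (h𝒞 : ∀ U ∈ 𝒞, ∀ V ∈ 𝒞, U ≠ V → Disjoint (U : Set Y) V) :
    𝒞.Countable := by
  have hinj : InjOn (fun (p : ONS Y) (_ : Fin 1) => p) 𝒞 := by
    intro p hp q hq hpq
    exact congrFun hpq 0
  have := ccc_box hY (n := 1) (fun _ => univ) (fun _ => isOpen_univ)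
    (fun i j hij => absurd (Subsingleton.elim i j) hij)
    ((fun (p : ONS Y) (_ : Fin 1) => p) '' 𝒞) (by
      rintro _ ⟨p, hp, rfl⟩ i
      exact subset_univ _) (by
      rintro _ ⟨p, hp, rfl⟩ _ ⟨q, hq, rfl⟩ hne
      exact ⟨0, h𝒞 p hp q hq fun he => hne (by rw [he])⟩)
  exact countable_of_injective_of_countable_image hinj this

section

variable {T : Type u} [PartialOrder T]

/-- The branches of a tree. -/
structure Br (T : Type u) [PartialOrder T] : Type u where
  carrier : Set T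
  chain : ∀ s ∈ carrier, ∀ t ∈ carrier, Comparable s t
  maximal : ∀ t, (∀ s ∈ carrier, Comparable s t) → t ∈ carrier

/-- The branches through a node. -/
def thr (t : T) : Set (Br T) := {b | t ∈ b.carrier}

theorem Br.down (h : IsSuslinTree T) (b : Br T) {s t : T} (hst : s ≤ t) (ht : t ∈ b.carrier) :
    s ∈ b.carrier := by
  apply b.maximal
  intro r hr
  rcases b.chain r hr t ht with h1 | h1
  · exact comp_of_le_le h.wellOrdered h1 hst
  · exact Or.inr (hst.trans h1)

theorem thr_anti (h : IsSuslinTree T) {s t : T} (hst : s ≤ t) : thr t ⊆ thr s :=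
  fun b hb => b.down h hst hb

/-- The topology of the branch space. -/
@[instance_reducible]
def brSpace (h : IsSuslinTree T) : TopologicalSpace (Br T) where
  IsOpen U := ∀ b ∈ U, ∃ t ∈ b.carrier, thr t ⊆ U
  isOpen_univ := by
    intro b _
    have : b.carrier.Nonempty := by
      by_contra hcon
      rw [not_nonempty_iff_eq_empty] at hcon
      apply h.uncountable
      have : (univ : Set T) = ∅ := by
        rw [eq_empty_iff_forall_notMem]
        intro t _
        have := b.maximal t (by rw [hcon]; simp)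
        rw [hcon] at this
        exact this
      rw [this]
      exact countable_empty
    obtain ⟨t, ht⟩ := this
    exact ⟨t, ht, subset_univ _⟩
  isOpen_inter := by
    rintro U V hU hV b ⟨hbU, hbV⟩
    obtain ⟨s, hs, hsU⟩ := hU b hbU
    obtain ⟨t, ht, htV⟩ := hV b hbV
    rcases b.chain s hs t ht with h1 | h1
    · exact ⟨t, ht, subset_inter ((thr_anti h h1).trans hsU) htV⟩
    · exact ⟨s, hs, subset_inter hsU ((thr_anti h h1).trans htV)⟩
  isOpen_sUnion := by
    rintro S hS b ⟨A, hA, hb⟩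
    obtain ⟨t, ht, h1⟩ := hS A hA b hb
    exact ⟨t, ht, h1.trans (subset_sUnion_of_mem hA)⟩

theorem thr_nonempty (t : T) : (thr t).Nonempty := by
  obtain ⟨C', hsub, hmax⟩ := zorn_subset_nonempty
    {C : Set T | ∀ s ∈ C, ∀ t ∈ C, Comparable s t}
    (by
      intro c hc hchain _
      refine ⟨⋃₀ c, ?_, fun s hs => subset_sUnion_of_mem hs⟩
      rintro B ⟨s, hs, hB⟩ B' ⟨s', hs', hB'⟩
      rcases hchain.total hs hs' with h | h
      · exact hc hs' B (h hB) B' hB'
      · exact hc hs B hB B' (h hB')) {t} (by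
      rintro s rfl r rfl; exact Or.inl le_rfl)
  have m1 := hmax.prop
  refine ⟨⟨C', m1, fun r hr => ?_⟩, hsub rfl⟩
  have hle : insert r C' ⊆ C' := by
    refine hmax.le_of_ge ?_ (subset_insert _ _)
    intro p hp q hq
    rcases hp with rfl | hp <;> rcases hq with rfl | hq
    · exact Or.inl le_rfl
    · exact (hr q hq).symm
    · exact hr p hp
    · exact m1 p hp q hq
  exact hle (mem_insert _ _)

theorem thr_disj {s t : T} (hst : ¬ Comparable s t) : Disjoint (thr s) (thr t) :=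
  disjoint_left.mpr fun b hs ht => hst (b.chain s hs t ht)

theorem thr_open (h : IsSuslinTree T) (t : T) : @IsOpen _ (brSpace h) (thr t) :=
  fun _ hb => ⟨t, hb, subset_rfl⟩

theorem br_piBase (h : IsSuslinTree T) : @PiBase T _ (Br T) (brSpace h) thr :=
  let _ := brSpace h
  { isOpen := thr_open h
    nonempty := thr_nonempty
    anti := fun _ _ hst => thr_anti h hst
    disj := fun _ _ hst => thr_disj hst
    pi := by
      rintro U hU ⟨b, hb⟩
      obtain ⟨t, -, ht⟩ := hU b hb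
      exact ⟨t, ht⟩ }

theorem thr_compl_open (h : IsSuslinTree T) (t : T) : @IsOpen _ (brSpace h) (thr t)ᶜ := by
  intro b hb
  have : ∃ s ∈ b.carrier, ¬ Comparable s t := by
    by_contra hcon
    push Not at hcon
    exact hb (b.maximal t hcon)
  obtain ⟨s, hs, hst⟩ := this
  exact ⟨s, hs, fun b' hb' hb'' => disjoint_left.mp (thr_disj hst) hb' hb''⟩

theorem br_t35 (h : IsSuslinTree T) : @T35Space (Br T) (brSpace h) := by
  classical
  let _ := brSpace h
  have ht0 : T0Space (Br T) := by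
    refine ⟨fun b b' hbb => ?_⟩
    rw [inseparable_iff_forall_isOpen] at hbb
    have key : ∀ t, t ∈ b.carrier ↔ t ∈ b'.carrier := fun t => hbb (thr t) (thr_open h t)
    cases b; cases b'
    simp only [Br.mk.injEq]
    exact Set.ext key
  have hcr : CompletelyRegularSpace (Br T) := by
    refine ⟨fun b K hK hb => ?_⟩
    obtain ⟨t, ht, htK⟩ := hK.isOpen_compl b hb
    have hcl : IsClopen (thr t) := ⟨⟨thr_compl_open h t⟩, thr_open h t⟩
    refine ⟨fun x => if x ∈ thr t then 0 else 1, ?_, ?_, ?_⟩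
    · refine continuous_if ?_ continuousOn_const continuousOn_const
      intro a ha
      have : a ∈ frontier (thr t) := ha
      rw [hcl.frontier_eq] at this
      exact absurd this (notMem_empty _)
    · show (if b ∈ thr t then (0 : unitInterval) else 1) = 0
      rw [if_pos (show b ∈ thr t from ht)]
    · intro x hx
      show (if x ∈ thr t then (0 : unitInterval) else 1) = 1
      rw [if_neg fun hxt => htK hxt hx]
  exact { }

end

end Pool.Agent.Helper63.Pow
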