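import Pool.Agent.Helper63.Pow.Code
import Pool.Agent.Helper63.Pow.FromBad
import Pool.Agent.Helper63.Pow.Space

/-!
Selection principles in finite powers.
-/

namespace Pool.Agent.Helper63.Pow

open Set

universe u v

section

variable {X : Type u} [TopologicalSpace X]

theorem infinitely_often {ℱ : ℕ → Set (Set X)} (hfin : ∀ n, (ℱ n).Finite)
    (h : (⋃ n, ℱ n) ∈ DOmega X) (𝒢 : Set (Set X)) (h𝒢 : 𝒢.Finite)
    (hop : ∀ F ∈ 𝒢, IsOpen F ∧ F.Nonempty) (N : ℕ) :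
    ∃ n, N ≤ n ∧ ∃ U ∈ ℱ n, ∀ F ∈ 𝒢, (U ∩ F).Nonempty := by
  have hfin2 : ((fun U => (closure U)ᶜ) '' ⋃ i ∈ Iio N, ℱ i).Finite :=
    ((finite_Iio N).biUnion fun i _ => hfin i).image _
  obtain ⟨U, hU, hm⟩ := h.2.2 (𝒢 ∪ (fun U => (closure U)ᶜ) '' ⋃ i ∈ Iio N, ℱ i)
    (h𝒢.union hfin2) (by
      rintro F (hF | ⟨U, hU, rfl⟩)
      · exact hop F hF
      · refine ⟨isClosed_closure.isOpen_compl, ?_⟩
        obtain ⟨i, -, hi⟩ := mem_iUnion₂.mp hU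
        have := h.2.1 U (mem_iUnion.mpr ⟨i, hi⟩)
        obtain ⟨x, -, hx⟩ := not_subset.mp this
        exact ⟨x, hx⟩)
  obtain ⟨n, hn⟩ := mem_iUnion.mp hU
  refine ⟨n, ?_, U, hn, fun F hF => hm F (Or.inl hF)⟩
  by_contra hlt
  push Not at hlt
  obtain ⟨x, hx1, hx2⟩ := hm _ (Or.inr ⟨U, mem_iUnion₂.mpr ⟨n, hlt, hn⟩, rfl⟩)
  exact hx2 (subset_closure hx1)

/-- The set `U` codes boxes. -/
def Code {ι : Type} (𝒞 : Set (ONS X)) (𝒱 : (ι → ℕ) → Set (Set (ι → X))) (U : Set X) : Prop :=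
  ∃ (m : ℕ) (G : Fin m → ONS X), (∀ j, G j ∈ 𝒞) ∧ U = ⋃ j, (G j : Set X) ∧
    ∀ c : ι → Fin m, GoodTup G c →
      ∃ V ∈ 𝒱 (fun i => (c i : ℕ)), univ.pi (fun i => (G (c i) : Set X)) ⊆ closure V

theorem code_mem {𝒞 : ℕ → Set (ONS X)} (h𝒞 : Sep 𝒞)
    (hsp : ∀ (m : ℕ) (F : Fin m → ONS X), ∃ F' : Fin m → ONS X, (∀ j, F' j ≤ F j) ∧
      ∃ o, ∀ j, ¬ Meet (F' j) o) {ι : Type} [Finite ι] (n : ℕ)
    (𝒱 : (ι → ℕ) → Set (Set (ι → X))) (h𝒱 : ∀ c, 𝒱 c ∈ DFam (ι → X)) :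
    {U | IsOpen U ∧ ¬ (univ : Set X) ⊆ closure U ∧ Code (𝒞 n) 𝒱 U} ∈ DOmega X := by
  apply mem_DOmega
  · intro U hU; exact hU.1
  · intro U hU; exact hU.2.1
  · intro ℱ hℱ hop
    obtain ⟨m, f, -, hf⟩ := hℱ.fin_param
    have hfo : ∀ j, IsOpen (f j) ∧ (f j).Nonempty := fun j => hop _ (hf ▸ mem_range_self j)
    obtain ⟨F', hF', o, ho⟩ := hsp m fun j => ⟨f j, hfo j⟩
    obtain ⟨G, hG, hR⟩ := code_exists (h𝒞.down n) (h𝒞.dense n) (h𝒞.hyp n) 𝒱 h𝒱 F'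
    refine ⟨⋃ j, (G j : Set X), ⟨isOpen_iUnion fun j => (G j).2.1, ?_, m, G,
      fun j => (hG j).2, rfl, hR⟩, ?_⟩
    · intro hd
      obtain ⟨x, hx⟩ := o.2.2
      obtain ⟨y, hy1, hy2⟩ := mem_closure_iff.mp (hd (mem_univ x)) _ o.2.1 hx
      obtain ⟨j, hj⟩ := mem_iUnion.mp hy2
      exact ho j (meet_iff.mpr ⟨y, (hG j).1 hj, hy1⟩)
    · intro F hF
      rw [← hf] at hF
      obtain ⟨j, rfl⟩ := hF
      obtain ⟨x, hx⟩ := (G j).2.2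
      exact ⟨x, mem_iUnion.mpr ⟨j, hx⟩, hF' j ((hG j).1 hx)⟩

theorem S1_pow {𝒞 : ℕ → Set (ONS X)} (h𝒞 : Sep 𝒞)
    (hsp : ∀ (m : ℕ) (F : Fin m → ONS X), ∃ F' : Fin m → ONS X, (∀ j, F' j ≤ F j) ∧
      ∃ o, ∀ j, ¬ Meet (F' j) o)
    (hX : S1 (DOmega X) (DOmega X)) (ι : Type) [Finite ι] :
    S1 (DFam (ι → X)) (DFam (ι → X)) := by
  classical
  intro 𝒱 h𝒱
  obtain ⟨e, he⟩ := exists_injective_nat (ι → ℕ)
  obtain ⟨U, hU, hΩ⟩ := hX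
    (fun n => {U | IsOpen U ∧ ¬ (univ : Set X) ⊆ closure U ∧
      Code (𝒞 n) (fun c : ι → ℕ => 𝒱 (Nat.pair n (e c))) U})
    (fun n => code_mem h𝒞 hsp n _ fun c => h𝒱 _)
  have hcode : ∀ n, Code (𝒞 n) (fun c : ι → ℕ => 𝒱 (Nat.pair n (e c))) (U n) :=
    fun n => (hU n).2.2
  choose m G h1 h2 h3 using hcode
  choose V hV1 hV2 using h3
  have hXne : Nonempty X := by
    obtain ⟨-, -, o, -⟩ := hsp 0 (fun j => j.elim0)
    exact ⟨o.2.2.some⟩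
  have hW : ∀ N, ∃ W ∈ 𝒱 N, ∀ n c (hc : GoodTup (G n) c),
      N = Nat.pair n (e fun i => (c i : ℕ)) → V n c hc = W := by
    intro N
    by_cases hN : ∃ n c, ∃ (_ : GoodTup (G n) c), N = Nat.pair n (e fun i => (c i : ℕ))
    · obtain ⟨n, c, hc, rfl⟩ := hN
      refine ⟨V n c hc, hV1 n c hc, ?_⟩
      intro n' c' hc' heq
      obtain ⟨hn, hee⟩ := Nat.pair_eq_pair.mp heq
      subst hn
      have : c' = c := by
        funext i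
        exact Fin.ext (congrFun (he hee) i).symm
      subst this
      rfl
    · obtain ⟨x, W, hWV, hx⟩ := (h𝒱 N).2.nonempty
      exact ⟨W, hWV, fun n c hc h => absurd ⟨n, c, hc, h⟩ hN⟩
  choose W hW1 hW2 using hW
  refine ⟨W, hW1, ?_, ?_⟩
  · rintro _ ⟨n, rfl⟩
    exact (h𝒱 n).1 _ (hW1 n)
  · rw [dense_iff_inter_open]
    intro O hO ⟨x, hx⟩
    obtain ⟨H, hH, hHO⟩ := isOpen_pi_iff'.mp hO x hx
    obtain ⟨F', hF', n₀, hsep⟩ := separate h𝒞 (fun i => (⟨H i, (hH i).1, ⟨x i, (hH i).2⟩⟩ : ONS X))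
    obtain ⟨n, hn, U', hU', hm⟩ := infinitely_often (ℱ := fun n => {U n})
      (fun n => finite_singleton _) (by
        convert hΩ using 1
        ext V
        simp [eq_comm]) (range fun i => (F' i : Set X)) (finite_range _) (by
        rintro F ⟨i, rfl⟩; exact (F' i).2) n₀
    have hUU : U' = U n := hU'
    subst hUU
    obtain ⟨c, hgood, hdec⟩ := decode h𝒞 hn hsep (G n) (h1 n) (by
      intro i
      obtain ⟨y, hy1, hy2⟩ := hm _ ⟨i, rfl⟩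
      rw [h2 n] at hy1
      obtain ⟨j, hj⟩ := mem_iUnion.mp hy1
      exact ⟨j, meet_iff.mpr ⟨y, hj, hy2⟩⟩)
    obtain ⟨z, hz1, hz2⟩ := hdec _ (hV2 n c hgood)
    refine ⟨z, hHO ?_, V n c hgood, ⟨_, (hW2 _ n c hgood rfl).symm⟩, hz1⟩
    exact fun i hi => hF' i (hz2 i hi)

theorem Sfin_pow {𝒞 : ℕ → Set (ONS X)} (h𝒞 : Sep 𝒞)
    (hsp : ∀ (m : ℕ) (F : Fin m → ONS X), ∃ F' : Fin m → ONS X, (∀ j, F' j ≤ F j) ∧
      ∃ o, ∀ j, ¬ Meet (F' j) o)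
    (hX : Sfin (DOmega X) (DOmega X)) (ι : Type) [Finite ι] :
    Sfin (DFam (ι → X)) (DFam (ι → X)) := by
  classical
  intro 𝒱 h𝒱
  obtain ⟨ℱ, hℱ, hΩ⟩ := hX
    (fun n => {U | IsOpen U ∧ ¬ (univ : Set X) ⊆ closure U ∧
      Code (𝒞 n) (fun _ : ι → ℕ => 𝒱 n) U})
    (fun n => code_mem h𝒞 hsp n _ fun c => h𝒱 _)
  have hcode : ∀ n, ∀ U : ℱ n, Code (𝒞 n) (fun _ : ι → ℕ => 𝒱 n) (U : Set X) :=
    fun n U => ((hℱ n).1 U.2).2.2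
  choose m G h1 h2 h3 using hcode
  choose V hV1 hV2 using h3
  refine ⟨fun n => {W | ∃ (U : ℱ n) (c : ι → Fin (m n U)) (hc : GoodTup (G n U) c),
    V n U c hc = W}, fun n => ⟨?_, ?_⟩, ?_, ?_⟩
  · rintro _ ⟨U, c, hc, rfl⟩
    exact hV1 n U c hc
  · have := (hℱ n).2.to_subtype
    refine (finite_range (fun p : Σ U : ℱ n, {c : ι → Fin (m n U) // GoodTup (G n U) c} =>
      V n p.1 p.2.1 p.2.2)).subset ?_
    rintro _ ⟨U, c, hc, rfl⟩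
    exact ⟨⟨U, c, hc⟩, rfl⟩
  · intro W hW
    obtain ⟨n, U, c, hc, rfl⟩ := mem_iUnion.mp hW
    exact (h𝒱 n).1 _ (hV1 n U c hc)
  · rw [dense_iff_inter_open]
    intro O hO ⟨x, hx⟩
    obtain ⟨H, hH, hHO⟩ := isOpen_pi_iff'.mp hO x hx
    obtain ⟨F', hF', n₀, hsep⟩ := separate h𝒞 (fun i => (⟨H i, (hH i).1, ⟨x i, (hH i).2⟩⟩ : ONS X))
    obtain ⟨n, hn, U, hU, hm⟩ := infinitely_often (ℱ := ℱ)
      (fun n => (hℱ n).2) hΩ (range fun i => (F' i : Set X)) (finite_range _) (by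
        rintro F ⟨i, rfl⟩; exact (F' i).2) n₀
    obtain ⟨c, hgood, hdec⟩ := decode h𝒞 hn hsep (G n ⟨U, hU⟩) (h1 n ⟨U, hU⟩) (by
      intro i
      obtain ⟨y, hy1, hy2⟩ := hm _ ⟨i, rfl⟩
      rw [show U = _ from h2 n ⟨U, hU⟩] at hy1
      obtain ⟨j, hj⟩ := mem_iUnion.mp hy1
      exact ⟨j, meet_iff.mpr ⟨y, hj, hy2⟩⟩)
    obtain ⟨z, hz1, hz2⟩ := hdec _ (hV2 n ⟨U, hU⟩ c hgood)
    refine ⟨z, hHO ?_, V n ⟨U, hU⟩ c hgood,
      mem_iUnion.mpr ⟨n, ⟨U, hU⟩, c, hgood, rfl⟩, hz1⟩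
    exact fun i hi => hF' i (hz2 i hi)

/-- The set of tuples all of whose blocks are in `W`. -/
def Blocks (r k : ℕ) (W : Set (Fin k → X)) : Set (Fin r × Fin k → X) :=
  {x | ∀ i, (fun j => x (i, j)) ∈ W}

theorem blocks_open {r k : ℕ} {W : Fin r → Set (Fin k → X)} (hW : ∀ i, IsOpen (W i)) :
    IsOpen {x : Fin r × Fin k → X | ∀ i, (fun j => x (i, j)) ∈ W i} := by
  have : {x : Fin r × Fin k → X | ∀ i, (fun j => x (i, j)) ∈ W i} =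
      ⋂ i, (fun (x : Fin r × Fin k → X) j => x (i, j)) ⁻¹' W i := by
    ext x; simp
  rw [this]
  refine isOpen_iInter_of_finite fun i => (hW i).preimage ?_
  exact continuous_pi fun j => continuous_apply (i, j)

theorem blocks_mem {k : ℕ} {𝒲 : Set (Set (Fin k → X))} (h𝒲 : 𝒲 ∈ DOmega (Fin k → X)) (r : ℕ) :
    {V | ∃ W ∈ 𝒲, V = Blocks r k W} ∈ DFam (Fin r × Fin k → X) := by
  refine ⟨?_, ?_⟩
  · rintro _ ⟨W, hW, rfl⟩
    exact blocks_open fun _ => h𝒲.1.1 W hW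
  · rw [dense_iff_inter_open]
    intro O hO ⟨x, hx⟩
    obtain ⟨H, hH, hHO⟩ := isOpen_pi_iff'.mp hO x hx
    obtain ⟨W, hW, hm⟩ := h𝒲.2.2 (range fun i : Fin r => univ.pi fun j : Fin k => H (i, j))
      (finite_range _) (by
        rintro F ⟨i, rfl⟩
        exact ⟨isOpen_set_pi finite_univ fun j _ => (hH (i, j)).1,
          ⟨fun j => x (i, j), fun j _ => (hH (i, j)).2⟩⟩)
    have : ∀ i, ∃ y, y ∈ W ∧ ∀ j, y j ∈ H (i, j) := by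
      intro i
      obtain ⟨y, hy1, hy2⟩ := hm _ ⟨i, rfl⟩
      exact ⟨y, hy1, fun j => hy2 j (mem_univ j)⟩
    choose y hy1 hy2 using this
    refine ⟨fun p => y p.1 p.2, hHO fun p _ => hy2 p.1 p.2, Blocks r k W, ⟨W, hW, rfl⟩, ?_⟩
    intro i
    exact hy1 i

theorem S1_up (h : ∀ r k : ℕ, S1 (DFam (Fin r × Fin k → X)) (DFam (Fin r × Fin k → X)))
    (k : ℕ) : S1 (DOmega (Fin k → X)) (DOmega (Fin k → X)) := by
  intro 𝒲 h𝒲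
  have hsel : ∀ r : ℕ, ∃ W : ℕ → Set (Fin k → X), (∀ l, W l ∈ 𝒲 (Nat.pair r l)) ∧
      Dense (⋃₀ {V | ∃ l, Blocks r k (W l) = V}) := by
    intro r
    obtain ⟨V, hV1, hV2⟩ := h r k (fun l => {V | ∃ W ∈ 𝒲 (Nat.pair r l), V = Blocks r k W})
      fun l => blocks_mem (h𝒲 _) r
    choose W hW1 hW2 using hV1
    refine ⟨W, hW1, ?_⟩
    have heq : {V' | ∃ l, Blocks r k (W l) = V'} = {V' | ∃ n, V n = V'} := by
      ext V'
      constructor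
      · rintro ⟨l, rfl⟩; exact ⟨l, hW2 l⟩
      · rintro ⟨l, rfl⟩; exact ⟨l, (hW2 l).symm⟩
    rw [heq]
    exact hV2.2
  choose W hW1 hW2 using hsel
  refine ⟨fun N => W N.unpair.1 N.unpair.2, fun N => ?_, ?_⟩
  · have := hW1 N.unpair.1 N.unpair.2
    rwa [Nat.pair_unpair] at this
  · apply mem_DOmega
    · rintro _ ⟨N, rfl⟩
      exact (h𝒲 _).1.1 _ (hW1 _ _)
    · rintro _ ⟨N, rfl⟩
      exact (h𝒲 _).2.1 _ (hW1 _ _)
    · intro ℱ hℱ hop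
      obtain ⟨r, f, -, hf⟩ := hℱ.fin_param
      have hfo : ∀ j, IsOpen (f j) ∧ (f j).Nonempty := fun j => hop _ (hf ▸ mem_range_self j)
      choose y hy using fun j => (hfo j).2
      obtain ⟨x, hx, _, ⟨l, rfl⟩, hxl⟩ := (hW2 r).inter_open_nonempty _
        (blocks_open fun i => (hfo i).1) ⟨fun p => y p.1 p.2, fun i => hy i⟩
      refine ⟨W r l, ⟨Nat.pair r l, by simp⟩, ?_⟩
      rintro F hF
      rw [← hf] at hF
      obtain ⟨i, rfl⟩ := hF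
      exact ⟨_, hxl i, hx i⟩

theorem Sfin_up (h : ∀ r k : ℕ, Sfin (DFam (Fin r × Fin k → X)) (DFam (Fin r × Fin k → X)))
    (k : ℕ) : Sfin (DOmega (Fin k → X)) (DOmega (Fin k → X)) := by
  intro 𝒲 h𝒲
  have hsel : ∀ r : ℕ, ∃ 𝒦 : ℕ → Set (Set (Fin k → X)),
      (∀ l, 𝒦 l ⊆ 𝒲 (Nat.pair r l) ∧ (𝒦 l).Finite) ∧
      Dense (⋃₀ {V | ∃ l, ∃ W ∈ 𝒦 l, Blocks r k W = V}) := by
    intro r
    obtain ⟨ℱ, hF1, hF2⟩ := h r k (fun l => {V | ∃ W ∈ 𝒲 (Nat.pair r l), V = Blocks r k W})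
      fun l => blocks_mem (h𝒲 _) r
    have hch : ∀ l, ∀ V : ℱ l, ∃ W ∈ 𝒲 (Nat.pair r l), (V : Set _) = Blocks r k W :=
      fun l V => (hF1 l).1 V.2
    choose W hW1 hW2 using hch
    refine ⟨fun l => range (W l), fun l => ⟨?_, ?_⟩, ?_⟩
    · rintro _ ⟨V, rfl⟩; exact hW1 l V
    · have := (hF1 l).2.to_subtype
      exact finite_range _
    · convert hF2.2 using 2
      ext V
      constructor
      · rintro ⟨l, _, ⟨V', rfl⟩, rfl⟩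
        rw [← hW2 l V']
        exact mem_iUnion.mpr ⟨l, V'.2⟩
      · intro hV
        obtain ⟨l, hl⟩ := mem_iUnion.mp hV
        exact ⟨l, _, ⟨⟨V, hl⟩, rfl⟩, (hW2 l ⟨V, hl⟩).symm⟩
  choose 𝒦 h𝒦1 h𝒦2 using hsel
  refine ⟨fun N => 𝒦 N.unpair.1 N.unpair.2, fun N => ?_, ?_⟩
  · have := h𝒦1 N.unpair.1 N.unpair.2
    rwa [Nat.pair_unpair] at this
  · apply mem_DOmega
    · intro V hV
      obtain ⟨N, hN⟩ := mem_iUnion.mp hV
      exact (h𝒲 _).1.1 _ ((h𝒦1 _ _).1 hN)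
    · intro V hV
      obtain ⟨N, hN⟩ := mem_iUnion.mp hV
      exact (h𝒲 _).2.1 _ ((h𝒦1 _ _).1 hN)
    · intro ℱ hℱ hop
      obtain ⟨r, f, -, hf⟩ := hℱ.fin_param
      have hfo : ∀ j, IsOpen (f j) ∧ (f j).Nonempty := fun j => hop _ (hf ▸ mem_range_self j)
      choose y hy using fun j => (hfo j).2
      obtain ⟨x, hx, _, ⟨l, W, hW, rfl⟩, hxl⟩ := (h𝒦2 r).inter_open_nonempty _
        (blocks_open fun i => (hfo i).1) ⟨fun p => y p.1 p.2, fun i => hy i⟩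
      refine ⟨W, mem_iUnion.mpr ⟨Nat.pair r l, by simpa using hW⟩, ?_⟩
      rintro F hF
      rw [← hf] at hF
      obtain ⟨i, rfl⟩ := hF
      exact ⟨_, hxl i, hx i⟩

/-- If finitely many atoms meet every open set then `D_Ω` is empty in all finite powers. -/
theorem DOmega_empty (𝒜 : Finset (ONS X)) (h1 : ∀ A ∈ 𝒜, Hyp A) (h2 : ∀ o, ∃ A ∈ 𝒜, Meet o A)
    (k : ℕ) (𝒲 : Set (Set (Fin k → X))) : 𝒲 ∉ DOmega (Fin k → X) := by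
  classical
  intro h𝒲
  obtain ⟨W, hW, hm⟩ := h𝒲.2.2 (range fun c : Fin k → 𝒜 => univ.pi fun j => ((c j).1 : Set X))
    (finite_range _) (by
      rintro F ⟨c, rfl⟩
      exact ⟨isOpen_set_pi finite_univ fun j _ => (c j).1.2.1,
        univ_pi_nonempty_iff.mpr fun j => (c j).1.2.2⟩)
  apply h𝒲.2.1 W hW
  intro y _
  rw [mem_closure_iff]
  intro O hO hy
  obtain ⟨N, hN, hNO⟩ := isOpen_pi_iff'.mp hO y hy
  have hc : ∀ j, ∃ A : 𝒜, Meet (⟨N j, (hN j).1, ⟨y j, (hN j).2⟩⟩ : ONS X) A.1 := by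
    intro j
    obtain ⟨A, hA, hm⟩ := h2 ⟨N j, (hN j).1, ⟨y j, (hN j).2⟩⟩
    exact ⟨⟨A, hA⟩, hm⟩
  choose c hc using hc
  obtain ⟨x, hxW, hxA⟩ := hm _ ⟨c, rfl⟩
  obtain ⟨H, hH, hHW⟩ := isOpen_pi_iff'.mp (h𝒲.1.1 W hW) x hxW
  have : ∀ j, ∃ z, z ∈ H j ∧ z ∈ N j := by
    intro j
    have h3 : ((c j).1 : Set X) ⊆ closure (H j) := hyp_closure (h1 _ (c j).2) (hH j).1
      ⟨x j, (hH j).2, hxA j (mem_univ j)⟩
    obtain ⟨w, hw1, hw2⟩ := meet_iff.mp (hc j)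
    obtain ⟨z, hz1, hz2⟩ := mem_closure_iff.mp (h3 hw2) _ (hN j).1 hw1
    exact ⟨z, hz2, hz1⟩
  choose z hz1 hz2 using this
  exact ⟨z, hNO fun j _ => hz2 j, hHW fun j _ => hz1 j⟩

theorem hbox_of_Sfin (hX : Sfin (DOmega X) (DOmega X)) (n : ℕ) (V : Fin n → ONS X)
    (hV : ∀ i j, i ≠ j → ¬ Meet (V i) (V j)) (𝒜 : Set (Fin n → ONS X))
    (h1 : ∀ B ∈ 𝒜, ∀ i, B i ≤ V i)
    (h2 : ∀ B ∈ 𝒜, ∀ B' ∈ 𝒜, B ≠ B' → ∃ i, ¬ Meet (B i) (B' i)) : 𝒜.Countable := by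
  have hd : ∀ A B : ONS X, ¬ Meet A B → Disjoint (A : Set X) B := by
    intro A B h
    rw [disjoint_iff_inter_eq_empty, ← not_nonempty_iff_eq_empty]
    exact fun h' => h (meet_iff.mpr h')
  refine ccc_box hX (fun i => (V i : Set X)) (fun i => (V i).2.1) (fun i j hij => hd _ _ (hV i j hij))
    𝒜 h1 fun B hB B' hB' hne => ?_
  obtain ⟨i, hi⟩ := h2 B hB B' hB' hne
  exact ⟨i, hd _ _ hi⟩

/-- Bad open sets give free Suslin trees. -/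
theorem not_bad (hX : Sfin (DOmega X) (DOmega X))
    (hno : ¬ ∃ (T : Type u) (_ : PartialOrder T), IsFreeSuslinTree T) : ¬ ∃ v : ONS X, Bad v := by
  rintro ⟨v, hv⟩
  obtain ⟨T, i, -, h, -, -⟩ := tree_of_bad hv (hbox_of_Sfin hX)
  exact hno ⟨T, i, h⟩

/-- Bad open sets give uncountable cellular families in the square. -/
theorem not_bad' (hX : Sfin (DOmega X) (DOmega X))
    (hccc : ∀ 𝒞 : Set (ONS (Fin 2 → X)),
      (∀ U ∈ 𝒞, ∀ V ∈ 𝒞, U ≠ V → Disjoint (U : Set (Fin 2 → X)) V) → 𝒞.Countable) :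
    ¬ ∃ v : ONS X, Bad v := by
  rintro ⟨v, hv⟩
  obtain ⟨T, i, o, h, hc, ho⟩ := tree_of_bad hv (hbox_of_Sfin hX)
  obtain ⟨𝒞, h1, h2⟩ := not_Sfin_square h.toIsSuslinTree hc (o := fun t => (o t : Set X))
    (fun t => (o t).2) (fun s t hst => by
      rw [disjoint_iff_inter_eq_empty, ← not_nonempty_iff_eq_empty]
      exact fun h' => ho s t hst (meet_iff.mpr h'))
  exact h1 (hccc 𝒞 h2)

theorem pos_S1 (hX : S1 (DOmega X) (DOmega X)) (hb : ¬ ∃ v : ONS X, Bad v) (k : ℕ) :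
    S1 (DOmega (Fin k → X)) (DOmega (Fin k → X)) := by
  rcases sep_or_bad (P := ONS X) with h | ⟨𝒞, h𝒞⟩
  · exact absurd h hb
  rcases spread (P := ONS X) with hsp | ⟨𝒜, h1, h2⟩
  · exact S1_up (fun r k => S1_pow h𝒞 hsp hX _) k
  · intro 𝒲 h𝒲
    exact absurd (h𝒲 0) (DOmega_empty 𝒜 h1 h2 k _)

theorem pos_Sfin (hX : Sfin (DOmega X) (DOmega X)) (hb : ¬ ∃ v : ONS X, Bad v) (k : ℕ) :
    Sfin (DOmega (Fin k → X)) (DOmega (Fin k → X)) := by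
  rcases sep_or_bad (P := ONS X) with h | ⟨𝒞, h𝒞⟩
  · exact absurd h hb
  rcases spread (P := ONS X) with hsp | ⟨𝒜, h1, h2⟩
  · exact Sfin_up (fun r k => Sfin_pow h𝒞 hsp hX _) k
  · intro 𝒲 h𝒲
    exact absurd (h𝒲 0) (DOmega_empty 𝒜 h1 h2 k _)

end

/-- A free Suslin tree gives a counterexample which is a Tychonoff space. -/
theorem counter (h : ∃ (T : Type u) (_ : PartialOrder T), IsFreeSuslinTree T) :
    ∃ (X : Type u) (_ : TopologicalSpace X), T35Space X ∧ S1 (DOmega X) (DOmega X) ∧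
      ¬ Sfin (DOmega (Fin 2 → X)) (DOmega (Fin 2 → X)) := by
  obtain ⟨T, i, hT⟩ := h
  have h1 := pr_free hT
  have h2 := pr_cone hT.toIsSuslinTree
  let _ := brSpace h1.toIsSuslinTree
  refine ⟨Br (Pr T), inferInstance, br_t35 h1.toIsSuslinTree,
    S1_tree h1 h2 (br_piBase h1.toIsSuslinTree), fun hS => ?_⟩
  obtain ⟨𝒞, h3, h4⟩ := not_Sfin_square h1.toIsSuslinTree h2 (o := thr)
    (fun t => ⟨thr_open h1.toIsSuslinTree t, thr_nonempty t⟩) (fun s t hst => thr_disj hst)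
  exact h3 (ccc_of_Sfin hS 𝒞 h4)

end Pool.Agent.Helper63.Pow
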