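import Pool.Agent.Helper63.Pow.Box

/-!
Suslin trees: pruning, and uncountable antichains in the square.
-/

namespace Pool.Agent.Helper63.Pow

open Set

universe u v

section

variable {T : Type u} [PartialOrder T]

theorem Comparable.symm {s t : T} (h : Comparable s t) : Comparable t s := Or.symm h

theorem comp_of_le_le (h : ∀ t : T, IsWellOrder {s : T // s < t} (fun a b => a.1 < b.1))
    {s t u : T} (hs : s ≤ u) (ht : t ≤ u) : Comparable s t := by
  rcases hs.eq_or_lt with rfl | hs'
  · exact Or.inr ht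
  rcases ht.eq_or_lt with rfl | ht'
  · exact Or.inl hs
  have := h u
  rcases trichotomous_of (fun a b : {s : T // s < u} => a.1 < b.1) ⟨s, hs'⟩ ⟨t, ht'⟩ with
    hlt | heq | hgt
  · exact Or.inl hlt.le
  · exact Or.inl (congrArg Subtype.val heq).le
  · exact Or.inr hgt.le

theorem exists_min (h : ∀ t : T, IsWellOrder {s : T // s < t} (fun a b => a.1 < b.1))
    {S : Set T} {t : T} (ht : t ∈ S) : ∃ m ∈ S, m ≤ t ∧ ∀ s ∈ S, ¬ s < m := by
  by_cases hS : ∃ s ∈ S, s < t
  · obtain ⟨s, hs, hst⟩ := hS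
    have := h t
    have hwf : WellFounded (fun a b : {s : T // s < t} => a.1 < b.1) := IsWellFounded.wf
    obtain ⟨m, hm, hmin⟩ := hwf.has_min {x | x.1 ∈ S} ⟨⟨s, hst⟩, hs⟩
    refine ⟨m.1, hm, m.2.le, fun x hx hlt => ?_⟩
    exact hmin ⟨x, hlt.trans m.2⟩ hx hlt
  · push Not at hS
    exact ⟨t, ht, le_rfl, fun s hs => hS s hs⟩

/-- Nodes in an upper set with uncountable cones are uncountably many. -/
theorem uncountable_pruned (h : IsSuslinTree T) {S : Set T} (hS : ¬ S.Countable) :
    ¬ {t ∈ S | ¬ (Ici t).Countable}.Countable := by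
  intro hc
  apply hS
  set bad : Set T := {t | (Ici t).Countable} with hbad
  set E : Set T := {t ∈ bad | ∀ s ∈ bad, ¬ s < t} with hE
  have hEc : E.Countable := by
    apply h.antichains
    rintro s ⟨hs1, hs2⟩ t ⟨ht1, ht2⟩ hne (hle | hle)
    · exact ht2 s hs1 (lt_of_le_of_ne hle hne)
    · exact hs2 t ht1 (lt_of_le_of_ne hle hne.symm)
  have hU : (⋃ e ∈ E, Ici e).Countable := hEc.biUnion fun e he => he.1
  refine (hc.union hU).mono fun t ht => ?_
  by_cases htb : (Ici t).Countable
  · right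
    obtain ⟨m, hm, hmt, hmin⟩ := exists_min h.wellOrdered (S := bad) (t := t) htb
    exact mem_iUnion₂.mpr ⟨m, ⟨hm, hmin⟩, hmt⟩
  · left; exact ⟨ht, htb⟩

/-- The pruned subtree. -/
abbrev Pr (T : Type u) [PartialOrder T] : Type u := {t : T // ¬ (Ici t).Countable}

theorem pr_free (h : IsFreeSuslinTree T) : IsFreeSuslinTree (Pr T) where
  wellOrdered t := by
    have := h.wellOrdered t.1
    exact RelEmbedding.isWellOrder
      (r := fun a b : {s : Pr T // s < t} => a.1 < b.1)
      (s := fun a b : {s : T // s < t.1} => a.1 < b.1)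
      ⟨⟨fun a => ⟨a.1.1, a.2⟩, fun a b hab => by
        have := congrArg Subtype.val hab
        exact Subtype.ext (Subtype.ext this)⟩, Iff.rfl⟩
  uncountable hc := by
    have := uncountable_pruned h.toIsSuslinTree h.uncountable
    apply this
    have h2 := hc.image (Subtype.val : Pr T → T)
    refine h2.mono ?_
    rintro t ⟨_, ht⟩
    exact ⟨⟨t, ht⟩, mem_univ _, rfl⟩
  chains C hC := by
    have := h.chains (Subtype.val '' C) (by
      rintro _ ⟨s, hs, rfl⟩ _ ⟨t, ht, rfl⟩
      exact hC s hs t ht)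
    exact countable_of_injective_of_countable_image (Subtype.val_injective.injOn) this
  antichains A hA := by
    have := h.antichains (Subtype.val '' A) (by
      rintro _ ⟨s, hs, rfl⟩ _ ⟨t, ht, rfl⟩ hne
      exact hA s hs t ht fun he => hne (congrArg Subtype.val he))
    exact countable_of_injective_of_countable_image (Subtype.val_injective.injOn) this
  free n s hs A hA1 hA2 := by
    have hinj : Function.Injective (fun (x : Fin n → Pr T) (i : Fin n) => (x i).1) := by
      intro x y hxy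
      funext i
      exact Subtype.ext (congrFun hxy i)
    have := h.free n (fun i => (s i).1) hs ((fun (x : Fin n → Pr T) (i : Fin n) => (x i).1) '' A)
      (by
        rintro _ ⟨x, hx, rfl⟩ i
        exact hA1 x hx i)
      (by
        rintro _ ⟨x, hx, rfl⟩ _ ⟨y, hy, rfl⟩ hne
        exact hA2 x hx y hy fun he => hne (by rw [he]))
    exact countable_of_injective_of_countable_image hinj.injOn this

theorem pr_cone (h : IsSuslinTree T) (t : Pr T) : ¬ (Ici t).Countable := by
  intro hc
  apply uncountable_pruned h t.2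
  have h2 := hc.image (Subtype.val : Pr T → T)
  refine h2.mono ?_
  rintro s ⟨hs, hs'⟩
  exact ⟨⟨s, hs'⟩, hs, rfl⟩

theorem exists_split (h : IsSuslinTree T) {t : T} (ht : ¬ (Ici t).Countable) :
    ∃ a b, t ≤ a ∧ t ≤ b ∧ ¬ Comparable a b := by
  by_contra hcon
  push Not at hcon
  exact ht (h.chains _ fun s hs s' hs' => hcon s s' hs hs')

theorem countable_Iio (h : IsSuslinTree T) (t : T) : (Iio t).Countable :=
  h.chains _ fun _ hs _ hs' => comp_of_le_le h.wellOrdered (le_of_lt hs) (le_of_lt hs')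

theorem countable_Iic (h : IsSuslinTree T) (t : T) : (Iic t).Countable :=
  h.chains _ fun _ hs _ hs' => comp_of_le_le h.wellOrdered hs hs'

/-- In the square of a pruned Suslin tree there is an uncountable family of pairwise incompatible
pairs. -/
theorem square_not_ccc (h : IsSuslinTree T) (pr : ∀ t : T, ¬ (Ici t).Countable) :
    ∃ 𝒜 : Set (T × T), ¬ 𝒜.Countable ∧
      ∀ p ∈ 𝒜, ∀ q ∈ 𝒜, p ≠ q → ¬ Comparable p.1 q.1 ∨ ¬ Comparable p.2 q.2 := by
  obtain ⟨𝒜, -, hmax⟩ := zorn_subset_nonempty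
    {𝒜 : Set (T × T) | (∀ p ∈ 𝒜, ¬ Comparable p.1 p.2) ∧
      ∀ p ∈ 𝒜, ∀ q ∈ 𝒜, p ≠ q → ¬ Comparable p.1 q.1 ∨ ¬ Comparable p.2 q.2}
    (by
      intro c hc hchain _
      refine ⟨⋃₀ c, ⟨?_, ?_⟩, fun s hs => subset_sUnion_of_mem hs⟩
      · rintro B ⟨s, hs, hB⟩
        exact (hc hs).1 B hB
      · rintro B ⟨s, hs, hB⟩ B' ⟨s', hs', hB'⟩ hne
        rcases hchain.total hs hs' with h | h
        · exact (hc hs').2 B (h hB) B' hB' hne
        · exact (hc hs).2 B hB B' (h hB') hne) ∅ ⟨by simp, by simp⟩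
  obtain ⟨m1, m2⟩ := hmax.prop
  refine ⟨𝒜, fun hc => ?_, m2⟩
  have hM : (⋃ p ∈ 𝒜, (Iic p.1 ∪ Iic p.2)).Countable :=
    hc.biUnion fun p _ => (countable_Iic h _).union (countable_Iic h _)
  have : ∃ t, t ∉ ⋃ p ∈ 𝒜, (Iic p.1 ∪ Iic p.2) := by
    by_contra hcon
    push Not at hcon
    exact h.uncountable (hM.mono fun t _ => hcon t)
  obtain ⟨t, ht⟩ := this
  simp only [mem_iUnion₂, not_exists, mem_union, mem_Iic, not_or] at ht
  obtain ⟨a, b, ha, hb, hab⟩ := exists_split h (pr t)
  have hmem : insert (a, b) 𝒜 ∈ {𝒜 : Set (T × T) | (∀ p ∈ 𝒜, ¬ Comparable p.1 p.2) ∧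
      ∀ p ∈ 𝒜, ∀ q ∈ 𝒜, p ≠ q → ¬ Comparable p.1 q.1 ∨ ¬ Comparable p.2 q.2} := by
    have key : ∀ p ∈ 𝒜, ¬ Comparable p.1 a ∨ ¬ Comparable p.2 b := by
      intro p hp
      by_contra hcon
      push Not at hcon
      obtain ⟨h1, h2⟩ := hcon
      have h1' : p.1 ≤ t := by
        rcases h1 with h1 | h1
        · rcases comp_of_le_le h.wellOrdered h1 ha with h3 | h3
          · exact h3
          · exact absurd h3 (ht p hp).1
        · exact absurd (ha.trans h1) (ht p hp).1
      have h2' : p.2 ≤ t := by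
        rcases h2 with h2 | h2
        · rcases comp_of_le_le h.wellOrdered h2 hb with h3 | h3
          · exact h3
          · exact absurd h3 (ht p hp).2
        · exact absurd (hb.trans h2) (ht p hp).2
      exact m1 p hp (comp_of_le_le h.wellOrdered h1' h2')
    refine ⟨?_, ?_⟩
    · intro p hp
      rcases hp with rfl | hp
      · exact hab
      · exact m1 p hp
    · intro p hp q hq hne
      rcases hp with rfl | hp <;> rcases hq with rfl | hq
      · exact absurd rfl hne
      · rcases key q hq with h1 | h1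
        · exact Or.inl fun h => h1 h.symm
        · exact Or.inr fun h => h1 h.symm
      · exact key p hp
      · exact m2 p hp q hq hne
  have hle : insert (a, b) 𝒜 ⊆ 𝒜 := hmax.le_of_ge hmem (subset_insert _ _)
  exact (ht _ (hle (mem_insert _ _))).1 ha

end

end Pool.Agent.Helper63.Pow
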